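import Pool.Agent.Helper11_COV.Stmt

set_option autoImplicit false

/-!
Squad COV, module BND: the main inequality.
-/

namespace Pool.Agent.COV.H11

open Finset Classical Pool.Agent.COV

theorem bnd (hP : PopStmt) (hH : HybStmt) (hV : VvdStmt) (hC : CntStmt) (hW : PtwStmt)
    (hL : LevStmt) (hD : DdpStmt) : BndStmt := by
  intro S a c N r W t h1 hN hc hG hr
  set δ : ℕ → ℝ := fun p => if p < N ∧ p.Prime then W p * t p else 0 with hδ
  let X : Sys := ⟨S, a, c, δ⟩
  have hwt : ∀ p, 0 ≤ wt c p := fun p => Finset.sum_nonneg fun j _ => by positivity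
  have hδ1 : ∀ p, 0 ≤ X.δ p ∧ X.δ p < 1 := by
    intro p
    show 0 ≤ δ p ∧ δ p < 1
    rw [hδ]
    dsimp only
    split_ifs with h
    · obtain ⟨g1, g2, g3, g4⟩ := hG p h.1 h.2
      exact ⟨mul_nonneg (le_trans (hwt p) g1) g2, g3⟩
    · exact ⟨le_refl _, one_pos⟩
  have hδ2 : ∀ p, p.Prime → 1 / (1 - X.δ p) ≤ p := by
    intro p hp
    show 1 / (1 - δ p) ≤ p
    rw [hδ]
    dsimp only
    split_ifs with h
    · exact (hG p h.1 h.2).2.2.2
    · have : (1:ℝ) ≤ p := by exact_mod_cast hp.one_lt.le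
      simpa using this
  have hδ3 : ∀ p, p.Prime → 0 ≤ (fun p => 1 / (1 - X.δ p)) p ∧ (fun p => 1 / (1 - X.δ p)) p ≤ p := by
    intro p hp
    refine ⟨?_, hδ2 p hp⟩
    have := (hδ1 p).2
    have h2 : 0 < 1 - X.δ p := by linarith
    exact le_of_lt (by positivity)
  obtain ⟨P1, P2, P3, P4⟩ := hP X hδ1
  have hpt := hW X N r h1 hN hc hr
  have x0 : ℕ → ℕ := fun _ => 0
  -- sum of PO
  have hsum : ∀ (s : Finset ℕ) (n : ℕ) (F : ℕ → (ℕ → ℕ) → ℝ) (x : ℕ → ℕ),
      PO X n (fun y => ∑ k ∈ s, F k y) x = ∑ k ∈ s, PO X n (F k) x := by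
    intro s n F x
    induction s using Finset.induction_on with
    | empty => simpa using P3 n 0 x
    | insert k s hk ih =>
      rw [Finset.sum_insert hk, ← ih]
      have := P2 n (F k) (fun y => ∑ k ∈ s, F k y) 1 1 x
      simp only [one_mul] at this
      rw [← this]
      congr 1
      funext y
      rw [Finset.sum_insert hk]
  have hr1 : (r : ℝ) ≤ PO X N (fun y => ∑ k ∈ (range N).filter Nat.Prime, (cn X k y : ℝ)) x0 := by
    rw [← P3 N (r : ℝ) x0]
    exact P1 N _ _ x0 hpt
  rw [hsum] at hr1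
  refine le_trans hr1 ?_
  unfold cost
  refine Finset.sum_le_sum fun k hk => ?_
  obtain ⟨hkN, hkp⟩ := Finset.mem_filter.1 hk
  have hkN : k < N := Finset.mem_range.1 hkN
  obtain ⟨g1, g2, g3, g4⟩ := hG k hkN hkp
  have hδk : X.δ k = W k * t k := by
    show δ k = _
    rw [hδ]
    simp [hkN, hkp]
  -- drop the later coordinates
  have hdrop : PO X N (fun y => (cn X k y : ℝ)) x0 = PO X (k + 1) (fun y => (cn X k y : ℝ)) x0 := by
    apply P4 (k + 1) N _ (by omega)
    intro x y i hi
    have : cn X k (Function.update x i y) = cn X k x := by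
      unfold cn
      congr 1
      apply Finset.filter_congr
      intro d hd
      unfold BX
      constructor
      · intro h p hp hpk
        have := h p hp hpk
        rwa [Function.update_of_ne (by omega)] at this
      · intro h p hp hpk
        have := h p hp hpk
        rwa [Function.update_of_ne (by omega)]
    rw [this]
  rw [hdrop]
  refine le_trans (hL X hδ1 hc k hkp x0 x0) ?_
  rw [hδk]
  have hpos : 0 < 1 - W k * t k := by linarith
  have hWk : 0 ≤ W k := le_trans (hwt k) g1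
  -- hybrid
  have h2 := hH X hδ1 hδ2 hc k hkp (W k * t k) k (le_refl k) x0 x0
  have h3 : VV X.c (fun p => 1 / (1 - X.δ p)) k (fun v' => HH X k (W k * t k) 0 x0 v') x0 ≤
      VV X.c (fun p => 1 / (1 - X.δ p)) k (fun v' => (fun n : ℕ => W k * max 0 ((n : ℝ) - t k)) (tau k v')) x0 := by
    apply hV.2.1 _ _ _ _ _ hδ3
    intro v
    unfold HH
    have hcn := hC S c v k hkp hc
    have e1 : (LS X.S k).filter (fun d => BX X.a 0 d x0 ∧
        ∀ p ∈ d.primeFactors, 0 ≤ p → p < k → d.factorization p ≤ v p) =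
        (LS S k).filter (fun d => ∀ p ∈ d.primeFactors, p < k → d.factorization p ≤ v p) := by
      apply Finset.filter_congr
      intro d hd
      constructor
      · rintro ⟨_, h⟩ p hp hpk
        exact h p hp (Nat.zero_le _) hpk
      · intro h
        refine ⟨?_, fun p hp _ hpk => h p hp hpk⟩
        intro p hp hp0
        omega
    rw [e1]
    have e2 : W k * max 0 ((tau k v : ℝ) - t k) = max 0 (W k * (tau k v : ℝ) - W k * t k) := by
      rw [mul_max_of_nonneg _ _ hWk, mul_zero, mul_sub]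
    show _ ≤ W k * max 0 (((tau k v : ℕ) : ℝ) - t k)
    rw [e2]
    apply max_le_max (le_refl _)
    have : (tau k v : ℝ) * wt c k ≤ W k * (tau k v : ℝ) := by
      rw [mul_comm]
      exact mul_le_mul_of_nonneg_right g1 (Nat.cast_nonneg _)
    linarith
  have h3' := hV.2.2 X.c (fun p => 1 / (1 - X.δ p)) k (fun n : ℕ => W k * max 0 ((n : ℝ) - t k)) x0
  have h3 := h3.trans (le_of_eq h3')
  have h4 : DD X.c (fun p => 1 / (1 - X.δ p)) k (fun n : ℕ => W k * max 0 ((n : ℝ) - t k)) =
      W k * DD c (nu W t) k (fun x => max 0 ((x : ℝ) - t k)) := by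
    have e1 := hD.1 c (fun p => 1 / (1 - X.δ p)) k (fun x => max 0 ((x : ℝ) - t k)) (fun _ => 0) (W k) 0
    simp only [mul_zero, add_zero, zero_mul] at e1
    rw [show X.c = c from rfl, e1]
    congr 1
    apply hD.2.2.2
    intro p hp hpp
    show 1 / (1 - δ p) = nu W t p
    rw [hδ]
    have : p < N := lt_trans hp hkN
    simp [this, hpp, nu]
  rw [h4] at h3
  have h5 := le_trans h2 h3
  have h6 : 0 ≤ 1 / (1 - W k * t k) := by positivity
  calc 1 / (1 - W k * t k) * PO X k (fun y => HH X k (W k * t k) k y x0) x0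
      ≤ 1 / (1 - W k * t k) * (W k * DD c (nu W t) k (fun x => max 0 ((x : ℝ) - t k))) :=
        mul_le_mul_of_nonneg_left h5 h6
    _ = W k / (1 - W k * t k) * DD c (nu W t) k (fun x => max 0 ((x : ℝ) - t k)) := by ring

end Pool.Agent.COV.H11
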