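import Pool.Agent.Helper11_COV.Stmt

set_option autoImplicit false

/-!
Squad COV, modules MLA and MLB: mass lists.
-/

namespace Pool.Agent.COV.H11

open Pool.Agent.COV

theorem sq_eq {α : Type} (n : ℕ) (f : ℕ → α) : sq n f = f n := by
  cases n <;> rfl

theorem Phi_nil (f : ℕ → ℝ) : Phi [] f = 0 := by simp [Phi]

theorem Phi_cons (a : ℕ × ℕ) (l : ML) (f : ℕ → ℝ) : Phi (a :: l) f = (a.2 : ℝ) * f a.1 + Phi l f := by
  simp [Phi]

theorem Phi_append (l k : ML) (f : ℕ → ℝ) : Phi (l ++ k) f = Phi l f + Phi k f := by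
  simp [Phi]

theorem blt_iff (a b : ℕ) : Nat.blt a b = true ↔ a < b := by
  simp [Nat.blt, Nat.ble_eq]

theorem Phi_ins (g m : ℕ) (l : ML) (f : ℕ → ℝ) : Phi (ins g m l) f = m * f g + Phi l f := by
  induction l with
  | nil => simp [ins, Phi_cons, Phi_nil]
  | cons a l ih =>
    unfold ins
    rcases Bool.eq_false_or_eq_true (Nat.blt g a.1) with h | h
    · rw [h, cond_true, Phi_cons]
    · rw [h, cond_false]
      rcases Bool.eq_false_or_eq_true (Nat.beq g a.1) with h2 | h2
      · rw [h2, cond_true, sq_eq, Phi_cons, Phi_cons]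
        have : g = a.1 := Nat.eq_of_beq_eq_true h2
        rw [this]
        push_cast
        ring
      · rw [h2, cond_false, Phi_cons, ih, Phi_cons]
        ring

theorem Phi_mrg (n : ℕ) (a b : ML) (f : ℕ → ℝ) : Phi (mrg n a b) f = Phi a f + Phi b f := by
  induction n generalizing a b with
  | zero => simp [mrg, Phi_append]
  | succ n ih =>
    cases a with
    | nil => simp [mrg, Phi_nil]
    | cons x l =>
      cases b with
      | nil => simp [mrg, Phi_nil]
      | cons y k =>
        unfold mrg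
        rcases Bool.eq_false_or_eq_true (Nat.blt x.1 y.1) with h | h
        · rw [h, cond_true, Phi_cons, ih]
          simp only [Phi_cons]
          ring
        · rw [h, cond_false]
          rcases Bool.eq_false_or_eq_true (Nat.beq x.1 y.1) with h2 | h2
          · rw [h2, cond_true, sq_eq, Phi_cons, ih]
            simp only [Phi_cons]
            have : x.1 = y.1 := Nat.eq_of_beq_eq_true h2
            rw [this]
            push_cast
            ring
          · rw [h2, cond_false, Phi_cons, ih]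
            simp only [Phi_cons]
            ring

theorem phi_eq (t k : ℕ) (l : ML) : ((phi t k l : ℕ) : ℝ) = Phi l (fun x => pt (t : ℝ) (k * x)) := by
  induction l with
  | nil => simp [phi, Phi_nil]
  | cons a l ih =>
    unfold phi
    rw [Phi_cons, Nat.cast_add, ih, Nat.cast_mul]
    congr 2
    unfold pt
    rcases le_total (k * a.1) t with h | h
    · rw [Nat.cast_sub h, max_eq_right]
      have : ((k * a.1 : ℕ) : ℝ) ≤ t := by exact_mod_cast h
      linarith
    · rw [Nat.sub_eq_zero_of_le h, max_eq_left]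
      · simp
      · have : (t : ℝ) ≤ ((k * a.1 : ℕ) : ℝ) := by exact_mod_cast h
        linarith

theorem frc_eq (l : ML) (K : ML → Bool) : frc l K = K l := by
  induction l generalizing K with
  | nil => rfl
  | cons a l ih =>
    unfold frc
    rw [sq_eq, sq_eq, ih]

theorem Phi_mono (l : ML) (f g : ℕ → ℝ) (h : ∀ x, f x ≤ g x) : Phi l f ≤ Phi l g := by
  induction l with
  | nil => simp [Phi_nil]
  | cons a l ih =>
    rw [Phi_cons, Phi_cons]
    exact add_le_add (mul_le_mul_of_nonneg_left (h _) (Nat.cast_nonneg _)) ih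

theorem Phi_smul (l : ML) (u : ℝ) (f : ℕ → ℝ) : Phi l (fun x => u * f x) = u * Phi l f := by
  induction l with
  | nil => simp [Phi_nil]
  | cons a l ih =>
    rw [Phi_cons, Phi_cons, ih]
    ring

theorem mla : MlaStmt :=
  ⟨Phi_ins, Phi_mrg, phi_eq, frc_eq, Phi_mono, Phi_smul⟩

theorem pt_nonneg (s : ℝ) (x : ℕ) : 0 ≤ pt s x := le_max_left _ _

theorem cd_ge (a b : ℕ) (hb : 0 < b) : (a : ℝ) / b ≤ (cd a b : ℕ) := by
  unfold cd
  have h1 : a < (a / b + 1) * b := by
    have := Nat.lt_div_mul_add (a := a) hb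
    nlinarith [Nat.div_add_mod a b, Nat.mod_lt a hb]
  have h2 : (a : ℝ) ≤ ((a / b + 1 : ℕ) : ℝ) * b := by exact_mod_cast h1.le
  rw [div_le_iff₀ (by exact_mod_cast hb)]
  exact h2

theorem pt_zero (C : ℕ) (s : ℝ) (x : ℕ) (hs : s ≤ C) (hx : C ≤ x) : pt s x = 0 := by
  unfold pt
  apply max_eq_left
  have : (C : ℝ) ≤ x := by exact_mod_cast hx
  linarith

theorem mulL_ge (C k u v : ℕ) (l : ML) (s : ℝ) (hs : s ≤ C) (hv : 0 < v) :
    (u : ℝ) / v * Phi l (fun x => pt s (k * x)) ≤ Phi (mulL C k u v l) (pt s) := by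
  induction l with
  | nil => simp [mulL, Phi_nil]
  | cons a l ih =>
    unfold mulL
    rw [Phi_cons, mul_add]
    rcases Bool.eq_false_or_eq_true (Nat.blt (k * a.1) C) with h | h
    · rw [h, cond_true, sq_eq, sq_eq, Phi_cons]
      refine add_le_add ?_ ih
      have h1 := cd_ge (a.2 * u) v hv
      calc (u : ℝ) / v * ((a.2 : ℝ) * pt s (k * a.1)) = ((a.2 * u : ℕ) : ℝ) / v * pt s (k * a.1) := by
            push_cast; ring
        _ ≤ _ := mul_le_mul_of_nonneg_right h1 (pt_nonneg _ _)
    · rw [h, cond_false]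
      have h1 : C ≤ k * a.1 := by
        by_contra h2
        push Not at h2
        rw [(blt_iff _ _).2 h2] at h
        exact absurd h (by simp)
      rw [pt_zero C s _ hs h1]
      simpa using ih

theorem spr_ge (x m : ℕ) (l : ML) (s : ℝ) : m * pt s x + Phi l (pt s) ≤ Phi (spr x m l) (pt s) := by
  unfold spr
  rcases Bool.eq_false_or_eq_true (Nat.blt x 8) with h | h
  · rw [h, cond_true, Phi_ins]
  · rw [h, cond_false, sq_eq, sq_eq]
    set q := 2 ^ (Nat.log2 x - 2) with hq
    have hq0 : 0 < q := by positivity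
    rcases Bool.eq_false_or_eq_true (Nat.beq (x % q) 0) with h2 | h2
    · rw [h2, cond_true, Phi_ins]
    · rw [h2, cond_false, sq_eq, sq_eq, sq_eq, Phi_ins, Phi_ins]
      set r := x % q with hr
      have hrq : r < q := Nat.mod_lt _ hq0
      have hrx : r ≤ x := Nat.mod_le _ _
      have c1 := cd_ge (m * (q - r)) q hq0
      have c2 := cd_ge (m * r) q hq0
      have hqR : (0 : ℝ) < q := by exact_mod_cast hq0
      have conv : pt s x ≤ ((q - r : ℕ) : ℝ) / q * pt s (x - r) + (r : ℝ) / q * pt s (x - r + q) := by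
        have e1 : ((x - r : ℕ) : ℝ) = x - r := Nat.cast_sub hrx
        have e2 : ((q - r : ℕ) : ℝ) = q - r := Nat.cast_sub hrq.le
        have hr0 : (0 : ℝ) ≤ r := Nat.cast_nonneg _
        have hrq' : (r : ℝ) ≤ q := by exact_mod_cast hrq.le
        unfold pt
        rw [Nat.cast_add, e1, e2]
        have k1 : (s - ((x : ℝ) - r)) ≤ max 0 (s - ((x : ℝ) - r)) := le_max_right _ _
        have k2 : (s - ((x : ℝ) - r + q)) ≤ max 0 (s - ((x : ℝ) - r + q)) := le_max_right _ _
        have k3 : 0 ≤ max 0 (s - ((x : ℝ) - r)) := le_max_left _ _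
        have k4 : 0 ≤ max 0 (s - ((x : ℝ) - r + q)) := le_max_left _ _
        have a1 : 0 ≤ ((q : ℝ) - r) / q := div_nonneg (by linarith) hqR.le
        have a2 : 0 ≤ (r : ℝ) / q := div_nonneg hr0 hqR.le
        apply max_le
        · positivity
        · have : s - (x : ℝ) = ((q : ℝ) - r) / q * (s - ((x : ℝ) - r)) + (r : ℝ) / q * (s - ((x : ℝ) - r + q)) := by
            field_simp
            ring
          rw [this]
          exact add_le_add (mul_le_mul_of_nonneg_left k1 a1) (mul_le_mul_of_nonneg_left k2 a2)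
      have hm : (0 : ℝ) ≤ m := Nat.cast_nonneg _
      have p1 := pt_nonneg s (x - r)
      have p2 := pt_nonneg s (x - r + q)
      have d1 : (m : ℝ) * (((q - r : ℕ) : ℝ) / q) * pt s (x - r) ≤ (cd (m * (q - r)) q : ℕ) * pt s (x - r) := by
        apply mul_le_mul_of_nonneg_right _ p1
        refine le_trans (le_of_eq ?_) c1
        push_cast
        ring
      have d2 : (m : ℝ) * ((r : ℝ) / q) * pt s (x - r + q) ≤ (cd (m * r) q : ℕ) * pt s (x - r + q) := by
        apply mul_le_mul_of_nonneg_right _ p2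
        refine le_trans (le_of_eq ?_) c2
        push_cast
        ring
      have d3 := mul_le_mul_of_nonneg_left conv hm
      linarith

theorem mulS_ge (C k u v : ℕ) (l : ML) (s : ℝ) (hs : s ≤ C) (hv : 0 < v) :
    (u : ℝ) / v * Phi l (fun x => pt s (k * x)) ≤ Phi (mulS C k u v l) (pt s) := by
  induction l with
  | nil => simp [mulS, Phi_nil]
  | cons a l ih =>
    unfold mulS
    rw [Phi_cons, mul_add]
    rcases Bool.eq_false_or_eq_true (Nat.blt (k * a.1) C) with h | h
    · rw [h, cond_true, sq_eq, sq_eq]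
      have h1 := cd_ge (a.2 * u) v hv
      have h2 := spr_ge (k * a.1) (cd (a.2 * u) v) (mulS C k u v l) s
      refine le_trans (add_le_add ?_ ih) h2
      calc (u : ℝ) / v * ((a.2 : ℝ) * pt s (k * a.1)) = ((a.2 * u : ℕ) : ℝ) / v * pt s (k * a.1) := by
            push_cast; ring
        _ ≤ _ := mul_le_mul_of_nonneg_right h1 (pt_nonneg _ _)
    · rw [h, cond_false]
      have h1 : C ≤ k * a.1 := by
        by_contra h2
        push Not at h2
        rw [(blt_iff _ _).2 h2] at h
        exact absurd h (by simp)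
      rw [pt_zero C s _ hs h1]
      simpa using ih

theorem mlb : MlbStmt := ⟨mulL_ge, spr_ge, mulS_ge⟩

end Pool.Agent.COV.H11
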