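import Pool.Agent.Helper11_COV.Stmt

set_option autoImplicit false

/-!
Squad COV, module UPD: update of a mass list at a small prime.
-/

namespace Pool.Agent.COV.H11

open Finset Pool.Agent.COV

theorem upd_ok (hA : MlaStmt) (hB : MlbStmt) : UpdStmt := by
  intro C p wd D J m s hs hD hp hJ hwd
  obtain ⟨_, hmrg, _, _, _, _⟩ := hA
  obtain ⟨hmulL, _, hmulS⟩ := hB
  have hDR : (0 : ℝ) < D := by exact_mod_cast hD
  have hpR : (0 : ℝ) < p := by exact_mod_cast (by omega : 0 < p)
  set P : ℕ → ℝ := fun k => Phi m (fun x => pt s (k * x)) with hP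
  set q : ℕ → ℝ := fun i => ((wd : ℝ) / D) / (p : ℝ) ^ i with hq
  have hP1 : Phi m (pt s) = P 1 := by
    simp [hP]
  have hPc : ∀ j : ℕ, Phi m (fun x => pt s ((j + 2) * x)) = P (j + 2) := fun j => rfl
  have hPc1 : ∀ j : ℕ, Phi m (fun x => pt s ((j + 1) * x)) = P (j + 1) := fun j => rfl
  have hstep : ∀ j, j < J → P 1 + ∑ i ∈ range j, q (i + 1) * (P (i + 2) - P (i + 1)) - q (j + 1) * P (j + 1)
      ≤ Phi (upd C p wd D J m j) (pt s) := by
    intro j
    induction j with
    | zero =>
      intro _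
      have h1 := hmulL C 1 (D * p - wd) (D * p) m s hs (Nat.mul_pos hD (by omega))
      have e : ((D * p - wd : ℕ) : ℝ) / ((D * p : ℕ) : ℝ) = 1 - q 1 := by
        rw [Nat.cast_sub hwd]
        push_cast
        simp only [hq, pow_one]
        field_simp
      rw [e] at h1
      show _ ≤ Phi (mulL C 1 (D * p - wd) (D * p) m) (pt s)
      have h1' : (1 - q 1) * P 1 ≤ Phi (mulL C 1 (D * p - wd) (D * p) m) (pt s) := h1
      simp only [range_zero, sum_empty, add_zero, zero_add]
      linarith
    | succ j ih =>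
      intro hj
      have h0 := ih (by omega)
      have hne : Nat.beq (j + 1) J = false := by
        rcases Bool.eq_false_or_eq_true (Nat.beq (j + 1) J) with h | h
        · have := Nat.eq_of_beq_eq_true h
          omega
        · exact h
      have e0 : upd C p wd D J m (j + 1) = mrg 1000 (mulS C (j + 2) (wd * (p - 1)) (D * p ^ (j + 2)) m)
          (upd C p wd D J m j) := by
        show mrg 1000 (bif Nat.beq (j + 1) J then _ else _) _ = _
        rw [hne, cond_false]
      rw [e0, hmrg]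
      have h1 := hmulS C (j + 2) (wd * (p - 1)) (D * p ^ (j + 2)) m s hs (by positivity)
      have e : ((wd * (p - 1) : ℕ) : ℝ) / ((D * p ^ (j + 2) : ℕ) : ℝ) = q (j + 1) - q (j + 2) := by
        rw [Nat.cast_mul, Nat.cast_sub (by omega)]
        push_cast
        simp only [hq]
        have hpj : (p : ℝ) ^ (j + 2) = (p : ℝ) ^ (j + 1) * p := by ring
        rw [hpj]
        field_simp
      rw [e] at h1
      have h1' : (q (j + 1) - q (j + 2)) * P (j + 2) ≤
          Phi (mulS C (j + 2) (wd * (p - 1)) (D * p ^ (j + 2)) m) (pt s) := h1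
      rw [Finset.sum_range_succ]
      have hp2 : j + 1 + 1 = j + 2 := rfl
      rw [hp2]
      nlinarith [h0, h1']
  obtain ⟨j, rfl⟩ : ∃ j, J = j + 1 := ⟨J - 1, by omega⟩
  have h0 := hstep j (by omega)
  have e0 : upd C p wd D (j + 1) m (j + 1) = mrg 1000 (mulS C (j + 2) wd (D * p ^ (j + 1)) m)
      (upd C p wd D (j + 1) m j) := by
    show mrg 1000 (bif Nat.beq (j + 1) (j + 1) then _ else _) _ = _
    rw [show Nat.beq (j + 1) (j + 1) = true from Nat.beq_refl _, cond_true]
  rw [e0, hmrg]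
  have h1 := hmulS C (j + 2) wd (D * p ^ (j + 1)) m s hs (by positivity)
  have e : ((wd : ℕ) : ℝ) / ((D * p ^ (j + 1) : ℕ) : ℝ) = q (j + 1) := by
    push_cast
    simp only [hq]
    field_simp
  rw [e] at h1
  have h1' : q (j + 1) * P (j + 2) ≤ Phi (mulS C (j + 2) wd (D * p ^ (j + 1)) m) (pt s) := h1
  have goal' : P 1 + ∑ i ∈ range (j + 1), q (i + 1) * (P (i + 2) - P (i + 1)) ≤
      Phi (mulS C (j + 2) wd (D * p ^ (j + 1)) m) (pt s) + Phi (upd C p wd D (j + 1) m j) (pt s) := by
    rw [Finset.sum_range_succ]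
    nlinarith [h0, h1']
  rw [hP1]
  exact goal'

end Pool.Agent.COV.H11
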