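import Pool.Agent.Helper11_COV.CovCore
import Pool.Agent.Helper11_COV.Bnd
import Pool.Agent.Helper11_COV.Mla
import Pool.Agent.Helper11_COV.Upd
import Pool.Agent.Helper93_COV.Rho
import Pool.Agent.Helper93_COV.Avr
import Pool.Agent.Helper93_COV.One
import Pool.Agent.Helper93_COV.Pop
import Pool.Agent.Helper93_COV.Vvd
import Pool.Agent.Helper93_COV.Ddp
import Pool.Agent.Helper93_COV.Blk
import Pool.Agent.Helper91_COV.Hyb
import Pool.Agent.Helper91_COV.Tai
import Pool.Agent.Helper81_COV.Chb
import Pool.Agent.Helper4_COV.Lev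
import Pool.Agent.Helper4_COV.Smp
import Pool.Agent.Helper34_COV.Bki
import Pool.Agent.Helper34_COV.Crt
import Pool.Agent.Helper47_COV.Bls
import Pool.Agent.Helper47_COV.Cnt
import Pool.Agent.Helper47_COV.Dds
import Pool.Agent.Helper47_COV.Wtb
import Pool.Agent.Helper49_COV.Exp
import Pool.Agent.Helper49_COV.Siv
import Pool.Agent.Helper24_COV.BKP

set_option autoImplicit false

/-!
Squad COV: all modules together.
-/

namespace Pool.Agent.COV.H11

open Finset Classical Pool.Agent.COV

theorem avr' : AvrStmt := H93.avr H93.rhoS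

theorem pop' : PopStmt := H93.pop avr'

theorem hyb' : HybStmt := H91.hyb H93.one avr' pop' H93.vvd

theorem bnd' : BndStmt :=
  bnd pop' hyb' H93.vvd H47.cnt (H34.ptw H34.crt) (H4.lev avr' pop') H93.ddp

theorem bki' : BkiStmt := H34.bki mla mlb H93.ddp

theorem dds' : DdsStmt := H47.dds H93.ddp

theorem upd' : UpdStmt := upd_ok mla mlb

theorem smp' : SmpStmt := H4.smp H93.ddp dds' mla upd' bki'

theorem tai' : TaiStmt := H91.tai H81.chb H93.ddp dds' H47.wtb

theorem mods (hP : BkpStmt) : Mods where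
  hB := bnd'
  hS := smp'
  hL := H47.bls (H93.blkS bki' hP) bki' mla
  hT := tai'
  hV := H49.siv
  hW := H47.wtb
  hE := H49.exp
  hK := bki'

theorem mods' : Mods := mods (H24.bkp H93.ddp dds' H47.wtb mla)

end Pool.Agent.COV.H11
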