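import Mathlib

set_option autoImplicit false

/-!
Squad COV: the kernel checker (all functions are structurally recursive; `sq` forces evaluation).
-/

namespace Pool.Agent.COV

/-- evaluate `n` before passing it on (kernel evaluation order) -/
def sq {α : Type} (n : ℕ) (f : ℕ → α) : α := match n with
  | 0 => f 0
  | k + 1 => f (k + 1)

/-- the scale -/
def SC : ℕ := 10 ^ 12

/-- rounding up -/
def cd (a b : ℕ) : ℕ := a / b + 1

/-- `min x SC` -/
def mn (x : ℕ) : ℕ := bif Nat.ble x SC then x else SC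

/-- mass lists: (value, scaled mass) -/
abbrev ML := List (ℕ × ℕ)

/-- scaled value of the put `(t - k x)⁺` -/
def phi (t k : ℕ) : ML → ℕ
  | [] => 0
  | a :: l => a.2 * (t - k * a.1) + phi t k l

/-- insert a mass -/
def ins (g m : ℕ) : ML → ML
  | [] => [(g, m)]
  | a :: l => bif Nat.blt g a.1 then (g, m) :: a :: l
      else bif Nat.beq g a.1 then (sq (m + a.2) fun s => (g, s) :: l)
      else a :: ins g m l

/-- merge two lists with fuel -/
def mrg : ℕ → ML → ML → ML
  | 0, a, b => a ++ b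
  | _ + 1, [], b => b
  | _ + 1, a, [] => a
  | n + 1, a :: l, b :: k => bif Nat.blt a.1 b.1 then a :: mrg n l (b :: k)
      else bif Nat.beq a.1 b.1 then (sq (a.2 + b.2) fun s => (a.1, s) :: mrg n l k)
      else b :: mrg n (a :: l) k

/-- scale a list by `u / v` (rounded up) and multiply the values by `k`, dropping values `≥ C` -/
def mulL (C k u v : ℕ) : ML → ML
  | [] => []
  | a :: l => bif Nat.blt (k * a.1) C then
        (sq (k * a.1) fun g => sq (cd (a.2 * u) v) fun m => (g, m) :: mulL C k u v l)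
      else mulL C k u v l

/-- spread a mass at `x` to the grid {4,5,6,7} * 2^i -/
def spr (x m : ℕ) (l : ML) : ML :=
  bif Nat.blt x 8 then ins x m l else
    sq (2 ^ (Nat.log2 x - 2)) fun q => sq (x % q) fun r =>
      bif Nat.beq r 0 then ins x m l else
        sq (x - r) fun lo => sq (cd (m * (q - r)) q) fun m1 => sq (cd (m * r) q) fun m2 =>
          ins lo m1 (ins (lo + q) m2 l)

/-- as `mulL`, with spreading -/
def mulS (C k u v : ℕ) : ML → ML
  | [] => []
  | a :: l => bif Nat.blt (k * a.1) C then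
        (sq (k * a.1) fun g => sq (cd (a.2 * u) v) fun m => spr g m (mulS C k u v l))
      else mulS C k u v l

/-- normalise a list -/
def frc : ML → (ML → Bool) → Bool
  | [], K => K []
  | a :: l, K => sq a.1 fun g => sq a.2 fun m => frc l fun l' => K ((g, m) :: l')

/-- the update of the mass list at a small prime `p` (call it with last argument `J`), `D = wd - t * wn` -/
def upd (C p wd D J : ℕ) (m : ML) : ℕ → ML
  | 0 => mulL C 1 (D * p - wd) (D * p) m
  | j + 1 => mrg 1000 (bif Nat.beq (j + 1) J then mulS C (j + 2) wd (D * p ^ J) m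
        else mulS C (j + 2) (wd * (p - 1)) (D * p ^ (j + 2)) m) (upd C p wd D J m j)

/-- data of a small prime: prime `p`, threshold `t`, `J` levels, `wt ≤ wn / wd`, `wt2 ≤ sn / sd` -/
structure Sm where
  p : ℕ
  t : ℕ
  J : ℕ
  wn : ℕ
  wd : ℕ
  sn : ℕ
  sd : ℕ

/-- small phase -/
def small (C : ℕ) : List Sm → ML → ℕ → ℕ → ℕ → (ML → ℕ → ℕ → ℕ → Bool) → Bool
  | [], m, M1, M2, T, K => K m M1 M2 T
  | a :: L, m, M1, M2, T, K =>
      sq (a.wd - a.t * a.wn) fun D =>
      sq (T + cd ((M1 + phi a.t 1 m - a.t * SC) * a.wn) D) fun T' =>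
      sq (M1 + cd (M1 * a.wn) D) fun M1' =>
      sq (M2 + cd (M2 * (a.wd * a.sn)) (D * a.sd)) fun M2' =>
      frc (upd C a.p a.wd D a.J m a.J) fun m' => small C L m' M1' M2' T' K

/-- one number of the sieve -/
def one (PR z t AB BC CC p s0 s1 M1 M2 T : ℕ) (K : ℕ → ℕ → ℕ → ℕ → ℕ → Bool) : Bool :=
  bif Nat.beq (Nat.gcd p PR) 1 then
    sq (p - z - t) fun d =>
    sq (cd (s0 * AB + s1 * BC) SC + M1 + CC - t * SC) fun E =>
    sq (T + cd E d) fun T' =>
    sq (p * d) fun pd =>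
    sq (s0 - s0 * (p - z) / pd) fun s0' =>
    sq (mn (s1 - s1 * (p - z) / pd + cd (s0 * (p - z) * (2 * p - z)) (2 * p * pd))) fun s1' =>
    sq (M1 + cd M1 d) fun M1' =>
    sq (M2 + cd (M2 * (3 * p - z)) ((p - z) * d)) fun M2' =>
    K s0' s1' M1' M2' T'
  else K s0 s1 M1 M2 T

/-- block loop, `n = 6 i + 1` -/
def blk (PR z t AB BC CC : ℕ) :
    ℕ → ℕ → ℕ → ℕ → ℕ → ℕ → ℕ → (ℕ → ℕ → ℕ → ℕ → ℕ → ℕ → Bool) → Bool
  | 0, n, s0, s1, M1, M2, T, K => K n s0 s1 M1 M2 T
  | f + 1, n, s0, s1, M1, M2, T, K =>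
     one PR z t AB BC CC n s0 s1 M1 M2 T fun s0 s1 M1 M2 T =>
     sq (n + 4) fun n4 =>
     one PR z t AB BC CC n4 s0 s1 M1 M2 T fun s0 s1 M1 M2 T =>
     sq (n + 6) fun n' => blk PR z t AB BC CC f n' s0 s1 M1 M2 T K

/-- block phase: list of (fuel, threshold) -/
def blocks (C PR z : ℕ) :
    List (ℕ × ℕ) → ℕ → ML → ℕ → ℕ → ℕ → (ℕ → ML → ℕ → ℕ → ℕ → Bool) → Bool
  | [], n, m, M1, M2, T, K => K n m M1 M2 T
  | b :: L, n, m, M1, M2, T, K =>
      (Nat.ble (2 * b.2 + z) n && Nat.ble b.2 C) &&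
      (sq (phi b.2 1 m) fun A => sq (phi b.2 2 m) fun B => sq (phi b.2 4 m) fun CC =>
       sq (A - B) fun AB => sq (B - CC) fun BC =>
       blk PR z b.2 AB BC CC b.1 n SC SC M1 M2 T fun n s0 s1 M1 M2 T =>
       frc (mrg 1000 (mulL C 1 s0 SC m)
          (mrg 1000 (mulL C 2 (s1 - s0) SC m) (mulL C 4 (SC - s1) SC m)))
         fun m' => blocks C PR z L n m' M1 M2 T K)

end Pool.Agent.COV
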