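import Pool.Agent.Helper11_COV.Fin

set_option autoImplicit false

/-!
Squad COV: the small primes of the classes.
-/

namespace Pool.Agent.COV.H11

open Finset Classical Pool.Agent.COV

theorem smA_ok (hW : WtbStmt) (Γ : ℕ) (hΓ : 22 ≤ Γ) :
    SmOk (fun _ => Γ) 131072 2 smA 61 := by
  unfold smA
  iterate 17
    refine ⟨by norm_num, by
      intro q h1 h2 h3
      simp only at h1 h2
      interval_cases q <;> first | (exfalso; revert h3; norm_num; done) | simp,
      smc_inf hW _ _ _ (by simp; omega) (by norm_num) rfl rfl rfl rfl (by norm_num) (by norm_num)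
        (by norm_num) (by norm_num), ?_⟩
  exact ⟨by norm_num, by
    intro q h1 h2 h3
    simp only at h1 h2
    interval_cases q <;> first | (exfalso; revert h3; norm_num; done) | simp⟩

theorem smB_ok (hW : WtbStmt) (Γ : ℕ) (hΓ : 22 ≤ Γ) :
    SmOk (fun p => if p = 2 then 1 else Γ) 524288 2 smB 61 := by
  unfold smB
  refine ⟨by norm_num, by
    intro q h1 h2 h3
    simp only at h1 h2
    interval_cases q <;> first | (exfalso; revert h3; norm_num; done) | simp, smc_two1 hW _ _ (by simp), ?_⟩
  iterate 16
    refine ⟨by norm_num, by
      intro q h1 h2 h3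
      simp only at h1 h2
      interval_cases q <;> first | (exfalso; revert h3; norm_num; done) | simp,
      smc_inf hW _ _ _ (by simp; omega) (by norm_num) rfl rfl rfl rfl (by norm_num) (by norm_num)
        (by norm_num) (by norm_num), ?_⟩
  exact ⟨by norm_num, by
    intro q h1 h2 h3
    simp only at h1 h2
    interval_cases q <;> first | (exfalso; revert h3; norm_num; done) | simp⟩

theorem smC_ok (hW : WtbStmt) (Γ : ℕ) (hΓ : 22 ≤ Γ) :
    SmOk (fun p => if p = 3 then 0 else Γ) 16384 2 smC 61 := by
  unfold smC
  iterate 16
    refine ⟨by norm_num, by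
      intro q h1 h2 h3
      simp only at h1 h2
      interval_cases q <;> first | (exfalso; revert h3; norm_num; done) | simp,
      smc_inf hW _ _ _ (by simp; omega) (by norm_num) rfl rfl rfl rfl (by norm_num) (by norm_num)
        (by norm_num) (by norm_num), ?_⟩
  exact ⟨by norm_num, by
    intro q h1 h2 h3
    simp only at h1 h2
    interval_cases q <;> first | (exfalso; revert h3; norm_num; done) | simp⟩

theorem smD_ok (hW : WtbStmt) (Γ : ℕ) (hΓ : 22 ≤ Γ) :
    SmOk (fun p => if p = 5 ∨ p = 7 then 0 else Γ) 16384 2 smD 61 := by
  unfold smD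
  iterate 15
    refine ⟨by norm_num, by
      intro q h1 h2 h3
      simp only at h1 h2
      interval_cases q <;> first | (exfalso; revert h3; norm_num; done) | simp,
      smc_inf hW _ _ _ (by simp; omega) (by norm_num) rfl rfl rfl rfl (by norm_num) (by norm_num)
        (by norm_num) (by norm_num), ?_⟩
  exact ⟨by norm_num, by
    intro q h1 h2 h3
    simp only at h1 h2
    interval_cases q <;> first | (exfalso; revert h3; norm_num; done) | simp⟩

theorem smE_ok (hW : WtbStmt) :
    SmOk (fun p => if p = 2 then 3 else 1) 65536 2 smE 61 := by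
  unfold smE
  refine ⟨by norm_num, by
    intro q h1 h2 h3
    simp only at h1 h2
    interval_cases q <;> first | (exfalso; revert h3; norm_num; done) | simp, smc_two3 hW _ _ (by simp), ?_⟩
  iterate 16
    refine ⟨by norm_num, by
      intro q h1 h2 h3
      simp only at h1 h2
      interval_cases q <;> first | (exfalso; revert h3; norm_num; done) | simp,
      smc_one hW _ _ _ (by simp) (by norm_num) rfl rfl rfl rfl rfl (by norm_num) (by norm_num)
        (by norm_num), ?_⟩
  exact ⟨by norm_num, by
    intro q h1 h2 h3
    simp only at h1 h2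
    interval_cases q <;> first | (exfalso; revert h3; norm_num; done) | simp⟩

theorem smF_ok (hW : WtbStmt) (Γ : ℕ) (hΓ : 22 ≤ Γ) :
    SmOk (fun p => if p = 2 then 0 else Γ) 16384 2 smF 61 := by
  unfold smF
  iterate 16
    refine ⟨by norm_num, by
      intro q h1 h2 h3
      simp only at h1 h2
      interval_cases q <;> first | (exfalso; revert h3; norm_num; done) | simp,
      smc_inf hW _ _ _ (by simp; omega) (by norm_num) rfl rfl rfl rfl (by norm_num) (by norm_num)
        (by norm_num) (by norm_num), ?_⟩
  exact ⟨by norm_num, by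
    intro q h1 h2 h3
    simp only at h1 h2
    interval_cases q <;> first | (exfalso; revert h3; norm_num; done) | simp⟩

theorem smG_ok (hW : WtbStmt) :
    SmOk (fun _ => 1) 16384 2 smG 61 := by
  unfold smG
  iterate 17
    refine ⟨by norm_num, by
      intro q h1 h2 h3
      simp only at h1 h2
      interval_cases q <;> first | (exfalso; revert h3; norm_num; done) | simp,
      smc_one hW _ _ _ (by simp) (by norm_num) rfl rfl rfl rfl rfl (by norm_num) (by norm_num)
        (by norm_num), ?_⟩
  exact ⟨by norm_num, by
    intro q h1 h2 h3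
    simp only at h1 h2
    interval_cases q <;> first | (exfalso; revert h3; norm_num; done) | simp⟩

theorem smH_ok (hW : WtbStmt) (Γ : ℕ) (hΓ : 22 ≤ Γ) :
    SmOk (fun p => if p ≤ 13 then Γ else 0) 16384 2 smH 14 := by
  unfold smH
  iterate 6
    refine ⟨by norm_num, by
      intro q h1 h2 h3
      simp only at h1 h2
      interval_cases q <;> first | (exfalso; revert h3; norm_num; done) | simp,
      smc_inf hW _ _ _ (by simp; omega) (by norm_num) rfl rfl rfl rfl (by norm_num) (by norm_num)
        (by norm_num) (by norm_num), ?_⟩
  exact ⟨by norm_num, by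
    intro q h1 h2 h3
    simp only at h1 h2
    interval_cases q <;> first | (exfalso; revert h3; norm_num; done) | simp⟩

end Pool.Agent.COV.H11
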