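import Pool.Agent.Helper11_COV.Cut

set_option autoImplicit false
set_option maxRecDepth 1000000

/-!
Squad COV: kernel run, class B, part 3.
-/

namespace Pool.Agent.COV

theorem runB3 : blocks 524288 PRc 1 b2B3 sB2.1 sB2.2.1 sB2.2.2.1 sB2.2.2.2.1 sB2.2.2.2.2
    (eqS sB3) = true := by decide +kernel

end Pool.Agent.COV
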