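import Pool.Agent.Helper11_COV.Cut

set_option autoImplicit false
set_option maxRecDepth 1000000

/-!
Squad COV: kernel run, class B, part 4.
-/

namespace Pool.Agent.COV

theorem runB4 : blocks 524288 PRc 1 b2B4 sB3.1 sB3.2.1 sB3.2.2.1 sB3.2.2.2.1 sB3.2.2.2.2
    (fun _ _ _ M2 T => Nat.blt (T * (20 * 2 ^ 20) + M2 * 16) (4 * SC * (20 * 2 ^ 20))) = true := by
  decide +kernel

end Pool.Agent.COV
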