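import Pool.Agent.Helper11_COV.RunB1
import Pool.Agent.Helper11_COV.RunB2
import Pool.Agent.Helper11_COV.RunB3
import Pool.Agent.Helper11_COV.RunB4

set_option autoImplicit false

/-!
Squad COV: kernel run, class B.
-/

namespace Pool.Agent.COV

theorem runB : drive 524288 PRc 1 20 16 4 61 smB b1B b2B = true := by
  have h : drive 524288 PRc 1 20 16 4 61 smB b1B b2B = pre 524288 PRc 1 61 smB b1B b2B
      (fun _ _ _ M2 T => Nat.blt (T * (20 * 2 ^ 20) + M2 * 16) (4 * SC * (20 * 2 ^ 20))) := rfl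
  rw [h, b2B_eq]
  have h1 : ∀ K, pre 524288 PRc 1 61 smB b1B (b2B1 ++ (b2B2 ++ (b2B3 ++ b2B4))) K =
      pre 524288 PRc 1 61 smB b1B b2B1
        (fun n m M1 M2 T => blocks 524288 PRc 1 (b2B2 ++ (b2B3 ++ b2B4)) n m M1 M2 T K) := by
    intro K
    unfold pre
    simp only [blocks_app]
  rw [h1, pre_cut _ _ _ _ _ _ _ _ runB1, blocks_app, blocks_cut _ _ _ _ _ _ _ _ _ _ runB2,
    blocks_app, blocks_cut _ _ _ _ _ _ _ _ _ _ runB3, runB4]

end Pool.Agent.COV
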