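import Pool.Agent.Helper11_COV.CovCore
import Pool.Agent.Helper11_COV.RunD

set_option autoImplicit false

/-!
Squad COV: the theorem for class D, from the module statements.
-/

namespace Pool.Agent.COV.H11

open Finset Classical Pool.Agent.COV

theorem covD (M : Mods) (S : Finset ℕ) (a : ℕ → ℤ) (h1 : ∀ d ∈ S, 1 < d)
    (h2 : ∀ d ∈ S, ¬ 5 ∣ d ∧ ¬ 7 ∣ d) :
    ¬ ∀ n : ℤ, 4 ≤ (S.filter (fun d : ℕ => n ≡ a d [ZMOD (d : ℤ)])).card := by
  obtain ⟨Γ, hΓ, hg⟩ := gam S
  refine class_fin M.hB M.hS M.hL M.hT M.hV.1 (fun p => if p = 5 ∨ p = 7 then 0 else Γ) 16384 PRb 1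
    511 271441 15 31 4 smD b1D b2D 1.706 M.hV.2.1 (by decide +kernel) (by decide +kernel) (by decide +kernel)
    (smD_ok M.hW Γ hΓ) (fun q hq _ => Or.inl ⟨rfl, ?_⟩) (by norm_num) (by decide +kernel)
    M.hE.1.1 (by norm_num) M.hE.1.2 runD S a h1 (fun d hd p => ?_)
  · have : ¬ (q = 5 ∨ q = 7) := by omega
    simp only [this, if_false]
    omega
  · split_ifs with h
    · rcases h with h | h
      · subst h
        exact (Nat.factorization_eq_zero_of_not_dvd (h2 d hd).1).le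
      · subst h
        exact (Nat.factorization_eq_zero_of_not_dvd (h2 d hd).2).le
    · exact hg d hd (h1 d hd) p

end Pool.Agent.COV.H11
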