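import Pool.Agent.Helper11_COV.CovCore
import Pool.Agent.Helper11_COV.RunE

set_option autoImplicit false

/-!
Squad COV: the theorem for class E, from the module statements.
-/

namespace Pool.Agent.COV.H11

open Finset Classical Pool.Agent.COV

theorem covE (M : Mods) (S : Finset ℕ) (a : ℕ → ℤ) (h1 : ∀ d ∈ S, 1 < d)
    (h2 : ∀ d ∈ S, ¬ 16 ∣ d ∧ ∀ p : ℕ, p.Prime → p ≠ 2 → ¬ p ^ 2 ∣ d) :
    ¬ ∀ n : ℤ, 4 ≤ (S.filter (fun d : ℕ => n ≡ a d [ZMOD (d : ℤ)])).card := by
  refine class_fin M.hB M.hS M.hL M.hT M.hV.1 (fun p => if p = 2 then 3 else 1) 65536 PRb 0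
    511 271441 17 22 4 smE b1E b2E 1.602 M.hV.2.1 (by decide +kernel) (by decide +kernel) (by decide +kernel)
    (smE_ok M.hW) (fun q hq _ => Or.inr ⟨rfl, ?_⟩) (by norm_num) (by decide +kernel)
    M.hE.2.1.1 (by norm_num) M.hE.2.1.2 runE S a h1 (fun d hd p => ?_)
  · have : q ≠ 2 := by omega
    simp only [this, if_false]
  · have hd0 : d ≠ 0 := by have := h1 d hd; omega
    split_ifs with h
    · subst h
      by_contra h3
      push Not at h3
      exact (h2 d hd).1 ((Nat.Prime.pow_dvd_iff_le_factorization Nat.prime_two hd0 (k := 4)).mpr h3)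
    · by_cases hp : p.Prime
      · by_contra h3
        push Not at h3
        exact (h2 d hd).2 p hp h ((Nat.Prime.pow_dvd_iff_le_factorization hp hd0 (k := 2)).mpr h3)
      · rw [Nat.factorization_eq_zero_of_not_prime d hp]
        omega

end Pool.Agent.COV.H11
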