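import Pool.Agent.Helper11_COV.CovCore
import Pool.Agent.Helper11_COV.RunG

set_option autoImplicit false

/-!
Squad COV: the theorem for class G, from the module statements.
-/

namespace Pool.Agent.COV.H11

open Finset Classical Pool.Agent.COV

theorem covG (M : Mods) (S : Finset ℕ) (a : ℕ → ℤ) (h1 : ∀ d ∈ S, 1 < d)
    (h2 : ∀ d ∈ S, Squarefree d) :
    ¬ ∀ n : ℤ, 3 ≤ (S.filter (fun d : ℕ => n ≡ a d [ZMOD (d : ℤ)])).card := by
  refine class_fin M.hB M.hS M.hL M.hT M.hV.1 (fun _ => 1) 16384 PRb 0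
    511 271441 15 31 3 smG b1G b2G 1.706 M.hV.2.1 (by decide +kernel) (by decide +kernel) (by decide +kernel)
    (smG_ok M.hW) (fun q hq _ => Or.inr ⟨rfl, rfl⟩) (by norm_num) (by decide +kernel)
    M.hE.1.1 (by norm_num) M.hE.1.2 runG S a h1 (fun d hd p => ?_)
  exact (h2 d hd).natFactorization_le_one p

end Pool.Agent.COV.H11
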