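import Pool.Agent.Helper11_COV.CovCore

set_option autoImplicit false

/-!
Squad COV: the theorem for class H, from the module statements.
-/

namespace Pool.Agent.COV.H11

open Finset Classical Pool.Agent.COV

/-- the small phase of class H -/
theorem runH : small 16384 smH [(1, SC)] SC SC 0
    (fun _ _ _ T => Nat.blt T (4 * SC)) = true := by decide +kernel

theorem covH (M : Mods) (S : Finset ℕ) (a : ℕ → ℤ) (h1 : ∀ d ∈ S, 1 < d)
    (h2 : ∀ d ∈ S, ∀ p : ℕ, p.Prime → p ∣ d → p ≤ 13) :
    ¬ ∀ n : ℤ, 4 ≤ (S.filter (fun d : ℕ => n ≡ a d [ZMOD (d : ℤ)])).card := by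
  intro hcov
  obtain ⟨Γ, hΓ, hg⟩ := gam S
  set c : ℕ → ℕ := fun p => if p ≤ 13 then Γ else 0 with hc
  obtain ⟨m, M1, M2, T, hI, hK⟩ := M.hS c 16384 smH 2 14 _ _ _ _ _ (smH_ok M.hW Γ hΓ) (inv0 c _) runH
  have hT : T < 4 * SC := by
    simpa only [Nat.blt_eq] using hK
  have key : ∀ N, 14 ≤ N → Inv c 16384 N m M1 M2 T := by
    intro N hN
    induction N, hN using Nat.le_induction with
    | base => exact hI
    | succ N hN ih =>
      refine M.hK.2.2.2 c _ N m M1 M2 T (Or.inr ?_) ih
      have : ¬ N ≤ 13 := by omega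
      simp [hc, this]
  obtain ⟨W, t, hG, -, -, -, hcost⟩ := key (S.sup id + 14) (by omega)
  have hb := M.hB S a c (S.sup id + 14) 4 W t h1 (fun d hd p hp hpd => by
    have h2 : p ≤ d := Nat.le_of_dvd (by have := h1 d hd; omega) hpd
    have h3 : d ≤ S.sup id := Finset.le_sup (f := id) hd
    omega) (fun d hd p => by
      rw [hc]
      dsimp only
      split_ifs with h
      · exact hg d hd (h1 d hd) p
      · by_cases hp : p.Prime
        · exact (Nat.factorization_eq_zero_of_not_dvd (fun h4 => h (h2 d hd p hp h4))).le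
        · exact (Nat.factorization_eq_zero_of_not_prime d hp).le) hG hcov
  have hSC : (0 : ℝ) < (SC : ℝ) := by
    have : 0 < SC := by unfold SC; norm_num
    exact_mod_cast this
  have hTR : (T : ℝ) < 4 * SC := by exact_mod_cast hT
  push_cast at hb
  nlinarith [mul_le_mul_of_nonneg_left hb hSC.le]

end Pool.Agent.COV.H11
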