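import Pool.Agent.Helper11_COV.CovA
import Pool.Agent.Helper11_COV.CovB
import Pool.Agent.Helper11_COV.CovC
import Pool.Agent.Helper11_COV.CovD
import Pool.Agent.Helper11_COV.CovE
import Pool.Agent.Helper11_COV.CovF
import Pool.Agent.Helper11_COV.CovG
import Pool.Agent.Helper11_COV.CovH

set_option autoImplicit false
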