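import Pool.Agent.Helper11_COV.Data

set_option autoImplicit false
set_option maxRecDepth 1000000

/-!
Squad COV: kernel run, class A.
-/

namespace Pool.Agent.COV

theorem runA : drive 131072 PRb 1 18 19 7 61 smA b1A b2A = true := by decide +kernel

end Pool.Agent.COV
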