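import Pool.Agent.Helper11_COV.CovCore
import Pool.Agent.Helper11_COV.RunA

set_option autoImplicit false

/-!
Squad COV: the theorem for class A, from the module statements.
-/

namespace Pool.Agent.COV.H11

open Finset Classical Pool.Agent.COV

theorem covA (M : Mods) (S : Finset ℕ) (a : ℕ → ℤ) (h1 : ∀ d ∈ S, 1 < d) :
    ¬ ∀ n : ℤ, 7 ≤ (S.filter (fun d : ℕ => n ≡ a d [ZMOD (d : ℤ)])).card := by
  obtain ⟨Γ, hΓ, hg⟩ := gam S
  exact class_fin M.hB M.hS M.hL M.hT M.hV.1 (fun _ => Γ) 131072 PRb 1 511 271441 18 19 7 smA b1A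
    b2A 1.561 M.hV.2.1 (by decide +kernel) (by decide +kernel) (by decide +kernel) (smA_ok M.hW Γ hΓ)
    (fun q hq _ => Or.inl ⟨rfl, by show 2 ≤ Γ; omega⟩) (by norm_num) (by decide +kernel) M.hE.2.2.1.1 (by norm_num)
    M.hE.2.2.1.2 runA S a h1 (fun d hd p => hg d hd (h1 d hd) p)

end Pool.Agent.COV.H11
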