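import Pool.Agent.Helper11_COV.Cls

set_option autoImplicit false

/-!
Squad COV: the module structure.
-/

namespace Pool.Agent.COV.H11

open Finset Classical Pool.Agent.COV

/-- the modules needed by the final theorems -/
structure Mods : Prop where
  hB : BndStmt
  hS : SmpStmt
  hL : BlsStmt
  hT : TaiStmt
  hV : SivStmt
  hW : WtbStmt
  hE : ExpStmt
  hK : BkiStmt

theorem gam (S : Finset ℕ) : ∃ Γ : ℕ, 22 ≤ Γ ∧ ∀ d ∈ S, 1 < d → ∀ p, d.factorization p ≤ Γ := by
  refine ⟨max 22 (S.sup id), le_max_left _ _, fun d hd h1 p => ?_⟩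
  have h2 : d ≤ S.sup id := Finset.le_sup (f := id) hd
  have h3 : d.factorization p < d := Nat.factorization_lt p (by omega)
  exact le_trans h3.le (le_trans h2 (le_max_right _ _))


end Pool.Agent.COV.H11
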