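import Pool.Agent.Helper11_COV.Data

set_option autoImplicit false

/-!
Squad COV: cutting a kernel run into pieces.
-/

namespace Pool.Agent.COV

/-- a state of the checker -/
abbrev St := ℕ × ML × ℕ × ℕ × ℕ

/-- compare with a stored state -/
def eqS (s : St) (n : ℕ) (m : ML) (M1 M2 T : ℕ) : Bool := decide ((n, m, M1, M2, T) = s)

theorem sq_eq {α : Type} (n : ℕ) (f : ℕ → α) : sq n f = f n := by
  cases n <;> rfl

theorem frc_eq (l : ML) (K : ML → Bool) : frc l K = K l := by
  induction l generalizing K with
  | nil => rfl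
  | cons a l ih => simp only [frc, sq_eq, ih]

theorem small_ex (C : ℕ) (L : List Sm) : ∀ (m : ML) (M1 M2 T : ℕ),
    ∃ (m' : ML) (M1' M2' T' : ℕ), ∀ K, small C L m M1 M2 T K = K m' M1' M2' T' := by
  induction L with
  | nil => intro m M1 M2 T; exact ⟨m, M1, M2, T, fun K => rfl⟩
  | cons a L ih =>
    intro m M1 M2 T
    simp only [small, sq_eq, frc_eq]
    exact ih _ _ _ _

theorem one_ex (PR z t AB BC CC p s0 s1 M1 M2 T : ℕ) :
    ∃ s0' s1' M1' M2' T' : ℕ, ∀ K, one PR z t AB BC CC p s0 s1 M1 M2 T K =
      K s0' s1' M1' M2' T' := by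
  cases h : Nat.beq (Nat.gcd p PR) 1 with
  | true =>
    simp only [one, sq_eq, h, cond_true]
    exact ⟨_, _, _, _, _, fun K => rfl⟩
  | false =>
    simp only [one, h, cond_false]
    exact ⟨_, _, _, _, _, fun K => rfl⟩

theorem blk_ex (PR z t AB BC CC : ℕ) (f : ℕ) : ∀ n s0 s1 M1 M2 T : ℕ,
    ∃ n' s0' s1' M1' M2' T' : ℕ, ∀ K, blk PR z t AB BC CC f n s0 s1 M1 M2 T K =
      K n' s0' s1' M1' M2' T' := by
  induction f with
  | zero => intro n s0 s1 M1 M2 T; exact ⟨n, s0, s1, M1, M2, T, fun K => rfl⟩
  | succ f ih =>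
    intro n s0 s1 M1 M2 T
    obtain ⟨a0, a1, a2, a3, a4, ha⟩ := one_ex PR z t AB BC CC n s0 s1 M1 M2 T
    obtain ⟨c0, c1, c2, c3, c4, hc⟩ := one_ex PR z t AB BC CC (n + 4) a0 a1 a2 a3 a4
    obtain ⟨d0, d1, d2, d3, d4, d5, hd⟩ := ih (n + 6) c0 c1 c2 c3 c4
    refine ⟨d0, d1, d2, d3, d4, d5, fun K => ?_⟩
    simp only [blk, sq_eq]
    rw [ha, hc, hd]

theorem blocks_ex (C PR z : ℕ) (L : List (ℕ × ℕ)) : ∀ (n : ℕ) (m : ML) (M1 M2 T : ℕ),
    ∃ (c : Bool) (n' : ℕ) (m' : ML) (M1' M2' T' : ℕ), ∀ K, blocks C PR z L n m M1 M2 T K =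
      (c && K n' m' M1' M2' T') := by
  induction L with
  | nil => intro n m M1 M2 T; exact ⟨true, n, m, M1, M2, T, fun K => by simp [blocks]⟩
  | cons b L ih =>
    intro n m M1 M2 T
    simp only [blocks, sq_eq, frc_eq]
    obtain ⟨n', s0', s1', M1', M2', T', h⟩ := blk_ex PR z b.2 (phi b.2 1 m - phi b.2 2 m)
      (phi b.2 2 m - phi b.2 4 m) (phi b.2 4 m) b.1 n SC SC M1 M2 T
    simp only [h]
    obtain ⟨c, n2, m2, a2, b2, t2, h2⟩ := ih n' (mrg 1000 (mulL C 1 s0' SC m)
          (mrg 1000 (mulL C 2 (s1' - s0') SC m) (mulL C 4 (SC - s1') SC m))) M1' M2' T'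
    refine ⟨(Nat.ble (2 * b.2 + z) n && Nat.ble b.2 C) && c, n2, m2, a2, b2, t2, fun K => ?_⟩
    rw [h2]
    simp only [Bool.and_assoc]

theorem blocks_app (C PR z : ℕ) (A B : List (ℕ × ℕ)) : ∀ (n : ℕ) (m : ML) (M1 M2 T : ℕ) (K),
    blocks C PR z (A ++ B) n m M1 M2 T K = blocks C PR z A n m M1 M2 T
      (fun n m M1 M2 T => blocks C PR z B n m M1 M2 T K) := by
  induction A with
  | nil => intro n m M1 M2 T K; rfl
  | cons b A ih =>
    intro n m M1 M2 T K
    simp only [List.cons_append, blocks, sq_eq, frc_eq, ih]

/-- if a run ends in the stored state, any continuation may be evaluated there -/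
theorem blocks_cut (C PR z : ℕ) (L : List (ℕ × ℕ)) (n : ℕ) (m : ML) (M1 M2 T : ℕ) (s : St)
    (h : blocks C PR z L n m M1 M2 T (eqS s) = true) (K) :
    blocks C PR z L n m M1 M2 T K = K s.1 s.2.1 s.2.2.1 s.2.2.2.1 s.2.2.2.2 := by
  obtain ⟨c, n', m', M1', M2', T', hc⟩ := blocks_ex C PR z L n m M1 M2 T
  rw [hc] at h
  rw [hc]
  simp only [eqS, Bool.and_eq_true, decide_eq_true_eq] at h
  obtain ⟨h1, h2⟩ := h
  rw [← h2, h1]
  rfl

/-- the first part of the driver -/
def pre (C PR z n0 : ℕ) (L : List Sm) (b1 b2 : List (ℕ × ℕ))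
    (K : ℕ → ML → ℕ → ℕ → ℕ → Bool) : Bool :=
  small C L [(1, SC)] SC SC 0 fun m M1 M2 T =>
    blocks C PRa z b1 n0 m M1 M2 T fun n m M1 M2 T => blocks C PR z b2 n m M1 M2 T K

theorem pre_cut (C PR z n0 : ℕ) (L : List Sm) (b1 b2 : List (ℕ × ℕ)) (s : St)
    (h : pre C PR z n0 L b1 b2 (eqS s) = true) (K) :
    pre C PR z n0 L b1 b2 K = K s.1 s.2.1 s.2.2.1 s.2.2.2.1 s.2.2.2.2 := by
  obtain ⟨m, M1, M2, T, h1⟩ := small_ex C L [(1, SC)] SC SC 0
  obtain ⟨c, n', m', M1', M2', T', h2⟩ := blocks_ex C PRa z b1 n0 m M1 M2 T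
  unfold pre at h ⊢
  rw [h1, h2] at h
  rw [h1, h2]
  rw [Bool.and_eq_true] at h
  rw [blocks_cut C PR z b2 n' m' M1' M2' T' s h.2, h.1]
  rfl

def b2B1 : List (ℕ × ℕ) := [(8, 384), (9, 384), (9, 384), (10, 384), (10, 512), (11, 512), (11, 512), (12, 512), (12, 512), (13, 512), (13, 512), (14, 640), (15, 640), (16, 768), (16, 768), (17, 768), (18, 768), (19, 768), (20, 768), (21, 1024), (22, 1024), (23, 1024), (24, 1024), (25, 1024), (27, 1024), (28, 1280), (29, 1280), (31, 1536), (32, 1536), (34, 1536), (36, 1536), (37, 1536), (39, 1792), (41, 2048), (43, 2048), (45, 2048), (48, 2048), (50, 2048), (53, 2048), (55, 2048), (58, 2560), (61, 2560), (64, 3072), (67, 3072), (71, 3072), (74, 3072), (78, 3072), (82, 3072), (86, 3584), (90, 4096), (95, 4096), (99, 4096), (104, 4096), (109, 4096), (115, 4096), (121, 5120), (127, 5120), (133, 6144), (140, 6144), (147, 6144), (154, 6144), (162, 6144), (170, 6144), (178, 7168), (187, 8192), (197, 8192), (206, 8192), (217, 8192), (228, 8192), (239, 8192), (251, 8192), (264, 10240), (277, 10240),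 (291, 10240), (305, 12288), (320, 12288), (336, 12288), (353, 12288), (371, 12288), (389, 12288), (409, 14336), (429, 16384), (451, 16384), (473, 16384), (497, 16384), (522, 16384), (548, 16384), (575, 16384), (604, 20480), (634, 20480), (666, 20480), (699, 24576), (734, 24576), (771, 24576), (809, 24576), (850, 24576), (892, 24576), (937, 24576), (984, 24576), (1033, 28672), (1085, 32768), (1139, 32768), (1196, 32768), (1256, 32768), (1318, 32768), (1384, 32768), (1454, 32768), (1526, 32768), (1603, 40960), (1683, 40960), (1767, 40960), (1855, 49152), (1948, 49152), (2045, 49152), (2148, 49152)]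

def b2B2 : List (ℕ × ℕ) := [(2255, 49152), (2368, 49152), (2486, 49152), (2610, 49152), (2741, 49152), (2878, 57344), (3022, 65536), (3173, 65536), (3332, 65536), (3498, 65536), (3673, 65536), (3857, 65536), (4050, 65536), (4252, 65536)]

def b2B3 : List (ℕ × ℕ) := [(4465, 81920), (4688, 81920), (4922, 81920), (5169, 81920), (5427, 81920), (5698, 98304), (5983, 98304), (6282, 98304)]

def b2B4 : List (ℕ × ℕ) := [(6596, 98304), (6926, 98304), (7273, 98304), (7636, 98304), (8018, 98304), (6375, 98304)]

theorem b2B_eq : b2B = b2B1 ++ (b2B2 ++ (b2B3 ++ b2B4)) := by decide +kernel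

def sB1 : St := (270661, [(1, 23095706797), (2, 91372682583), (3, 4784779243), (4, 167821584385), (5, 335548495), (6, 17858582023), (7, 33380553), (8, 195159886714), (10, 1390152395), (12, 30730476070), (14, 139283106), (16, 163790463912), (20, 2645709372), (24, 33382563964), (28, 268167397), (32, 106714076144), (40, 3141538502), (48, 26123906022), (56, 323122946), (64, 56549748424), (80, 2654620616), (96, 15845597061), (112, 277365689), (128, 25174583988), (160, 1719715731), (192, 7804517335), (224, 182470789), (256, 9640907338), (320, 896114340), (384, 3223584333), (448, 96447950), (512, 3234087697), (640, 388403739), (768, 1143249147), (896, 42337151), (1024, 963885225), (1280, 143529872), (1536, 354476820), (1792, 15816737), (2048, 258152915), (2560, 46084931), (3072, 97467944), (3584, 5124771), (4096, 62709542), (5120, 13050503), (6144, 24041595), (7168, 1461928), (8192, 13922850), (10240, 3299260), (12288, 5370645), (14336, 371803), (16384, 2843629), (20480, 752228), (24576, 1095404), (28672, 85313), (32768, 537371), (40960,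 156148), (49152, 205553), (57344, 17980), (65536, 94598), (81920, 29907), (98304, 35894), (114688, 3679), (131072, 15782), (163840, 5521), (196608, 6077), (229376, 966), (262144, 2723), (327680, 1224), (393216, 1236), (458752, 481)], 32077275236350, 19032849729956894, 3967745574682)

def sB2 : St := (535831, [(1, 21689334471), (2, 87171361481), (3, 4493418556), (4, 163036224006), (5, 315115869), (6, 17053419335), (7, 31347910), (8, 193347775560), (10, 1325299046), (12, 29921731265), (14, 132771189), (16, 165645863592), (20, 2567245172), (24, 33196190319), (28, 260117478), (32, 110247898274), (40, 3108927815), (48, 26560376479), (56, 319528421), (64, 59713663269), (80, 2683282252), (96, 16485103692), (112, 280042875), (128, 27182327258), (160, 1777546544), (192, 8313902361), (224, 188333642), (256, 10648192238), (320, 948054479), (384, 3518159783), (448, 101867559), (512, 3654883187), (640, 420915767), (768, 1278919940), (896, 45798728), (1024, 1114880688), (1280, 159434922), (1536, 406630017), (1792, 17537526), (2048, 305685235), (2560,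 52502603), (3072, 114695487), (3584, 5828235), (4096, 76039591), (5120, 15256456), (6144, 29031482), (7168, 1706303), (8192, 17292693), (10240, 3959567), (12288, 6657157), (14336, 445574), (16384, 3618750), (20480, 927162), (24576, 1394141), (28672, 104995), (32768, 700836), (40960, 197690), (49152, 268631), (57344, 22690), (65536, 126415), (81920, 38851), (98304, 48112), (114688, 4703), (131072, 21539), (163840, 7287), (196608, 8274), (229376, 1190), (262144, 3711), (327680, 1560), (393216, 1619), (458752, 537)], 34157218117478, 22980462818558574, 3968653959768)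

def sB3 : St := (791635, [(1, 20971125041), (2, 84990999230), (3, 4344625816), (4, 160487639495), (5, 304681289), (6, 16635022881), (7, 30309876), (8, 192301595249), (10, 1291673675), (12, 29488626138), (14, 129395340), (16, 166545899573), (20, 2525558066), (24, 33080550670), (28, 255844191), (32, 112097486483), (40, 3090296127), (48, 26778216877), (56, 317489909), (64, 61417907253), (80, 2697068936), (96, 16822389233), (112, 281316674), (128, 28287908214), (160, 1807771219), (192, 8590105245), (224, 191391985), (256, 11214041306), (320, 976026559), (384, 3681555385), (448, 104781843), (512, 3895823490), (640, 438836588), (768, 1355778075), (896, 47703872), (1024, 1202968620), (1280, 168390823), (1536, 436785681), (1792, 18504979), (2048, 333932207), (2560, 56191740), (3072, 124859970), (3584, 6231998), (4096, 84108439), (5120, 16550724), (6144, 32035412), (7168, 1849476), (8192, 19370400), (10240, 4354972), (12288, 7447377), (14336, 489687), (16384, 4105567), (20480, 1034082), (24576, 1581370), (28672, 117007), (32768, 805421), (40960,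 223609), (49152, 308975), (57344, 25628), (65536, 147151), (81920, 44547), (98304, 56083), (114688, 5355), (131072, 25361), (163840, 8434), (196608, 9733), (229376, 1329), (262144, 4378), (327680, 1782), (393216, 1875), (458752, 577)], 35327018853350, 25423317934614336, 3969080008872)

end Pool.Agent.COV
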