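import Mathlib

set_option autoImplicit false

/-!
Squad COV (problem MP_8c3bb7_nt): definitions.  The distortion method with a full convex comparison.
-/

namespace Pool.Agent.COV

open Finset Classical

/-- the weight `p⁻¹ + p⁻² + … + p^(-c p)` -/
noncomputable def wt (c : ℕ → ℕ) (p : ℕ) : ℝ := ∑ j ∈ range (c p), 1 / (p : ℝ) ^ (j + 1)

/-- the second moment weight `∑_{j=1}^{c p} (2 j + 1) p^(-j)` -/
noncomputable def wt2 (c : ℕ → ℕ) (p : ℕ) : ℝ :=
  ∑ j ∈ range (c p), (2 * (j : ℝ) + 3) / (p : ℝ) ^ (j + 1)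

/-- model expectation of `f τ`, `τ = ∏_{p < n} (v p + 1)`, `P (v p ≥ j) = ν p * p^(-j)`, `1 ≤ j ≤ c p` -/
noncomputable def DD (c : ℕ → ℕ) (ν : ℕ → ℝ) : ℕ → (ℕ → ℝ) → ℝ
  | 0, f => f 1
  | n + 1, f => if n.Prime then
        DD c ν n f + ∑ j ∈ range (c n), ν n / (n : ℝ) ^ (j + 1) *
          (DD c ν n (fun x => f ((j + 2) * x)) - DD c ν n (fun x => f ((j + 1) * x)))
      else DD c ν n f

/-- expectation over one coordinate `v p` -/
noncomputable def VO (c : ℕ → ℕ) (ν : ℕ → ℝ) (p : ℕ) (F : (ℕ → ℕ) → ℝ) (v : ℕ → ℕ) : ℝ :=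
  F (Function.update v p 0) + ∑ j ∈ range (c p), ν p / (p : ℝ) ^ (j + 1) *
    (F (Function.update v p (j + 1)) - F (Function.update v p j))

/-- expectation over the coordinates `v p`, `p < n` -/
noncomputable def VV (c : ℕ → ℕ) (ν : ℕ → ℝ) : ℕ → ((ℕ → ℕ) → ℝ) → (ℕ → ℕ) → ℝ
  | 0, F => F
  | n + 1, F => if n.Prime then VO c ν n (VV c ν n F) else VV c ν n F

/-- `∏_{p < n} (v p + 1)` -/
def tau (n : ℕ) (v : ℕ → ℕ) : ℕ := ∏ p ∈ (range n).filter Nat.Prime, (v p + 1)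

/-- average over the coordinate `p` (a residue modulo `p ^ c p`) -/
noncomputable def av (c : ℕ → ℕ) (p : ℕ) (F : (ℕ → ℕ) → ℝ) (x : ℕ → ℕ) : ℝ :=
  (∑ y ∈ range (p ^ c p), F (Function.update x p y)) / ((p ^ c p : ℕ) : ℝ)

/-- the coordinates `< i` of `x` are in the progression `a d` modulo `d` -/
def BX (a : ℕ → ℤ) (i d : ℕ) (x : ℕ → ℕ) : Prop :=
  ∀ p ∈ d.primeFactors, p < i → (x p : ℤ) ≡ a d [ZMOD ((p ^ d.factorization p : ℕ) : ℤ)]

/-- the moduli with largest prime factor `k` -/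
noncomputable def LS (S : Finset ℕ) (k : ℕ) : Finset ℕ :=
  S.filter (fun d => k ∈ d.primeFactors ∧ ∀ p ∈ d.primeFactors, p ≤ k)

/-- a system of progressions `a d` modulo `d`, `d ∈ S`, exponents `≤ c p`, thresholds `δ p` -/
structure Sys where
  S : Finset ℕ
  a : ℕ → ℤ
  c : ℕ → ℕ
  δ : ℕ → ℝ

/-- number of progressions of level `k` through `x` -/
noncomputable def cn (X : Sys) (k : ℕ) (x : ℕ → ℕ) : ℕ :=
  ((LS X.S k).filter (fun d => BX X.a (k + 1) d x)).card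

/-- fraction of the fibre covered at level `k` -/
noncomputable def be (X : Sys) (k : ℕ) (x : ℕ → ℕ) : ℝ :=
  (((range (k ^ X.c k)).filter (fun y => cn X k (Function.update x k y) ≠ 0)).card : ℝ) /
    ((k ^ X.c k : ℕ) : ℝ)

/-- the distortion density at level `k` -/
noncomputable def rho (X : Sys) (k : ℕ) (x : ℕ → ℕ) : ℝ :=
  if be X k x ≤ X.δ k then (if cn X k x = 0 then 1 / (1 - be X k x) else 0)
  else (if cn X k x = 0 then 1 / (1 - X.δ k) else (be X k x - X.δ k) / (be X k x * (1 - X.δ k)))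

/-- the distorted expectation over the coordinates `< n` -/
noncomputable def PO (X : Sys) : ℕ → ((ℕ → ℕ) → ℝ) → (ℕ → ℕ) → ℝ
  | 0, F => F
  | n + 1, F => if n.Prime then PO X n (fun x => av X.c n (fun y => rho X n y * F y) x)
      else PO X n F

/-- the hybrid function -/
noncomputable def HH (X : Sys) (k : ℕ) (t : ℝ) (i : ℕ) (x v : ℕ → ℕ) : ℝ :=
  max 0 ((∑ d ∈ (LS X.S k).filter (fun d => BX X.a i d x ∧
      ∀ p ∈ d.primeFactors, i ≤ p → p < k → d.factorization p ≤ v p),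
        1 / (k : ℝ) ^ (d.factorization k)) - t)

/-- `1 / (1 - W t)` -/
noncomputable def nu (W t : ℕ → ℝ) (p : ℕ) : ℝ := 1 / (1 - W p * t p)

/-- admissible thresholds below `n` -/
def Good (c : ℕ → ℕ) (n : ℕ) (W t : ℕ → ℝ) : Prop :=
  ∀ p < n, p.Prime → wt c p ≤ W p ∧ 0 ≤ t p ∧ W p * t p < 1 ∧ 1 / (1 - W p * t p) ≤ p

/-- the total cost of the primes below `n` -/
noncomputable def cost (c : ℕ → ℕ) (W t : ℕ → ℝ) (n : ℕ) : ℝ :=
  ∑ p ∈ (range n).filter Nat.Prime,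
    W p / (1 - W p * t p) * DD c (nu W t) p (fun x => max 0 ((x : ℝ) - t p))

/-- the put function -/
noncomputable def pt (s : ℝ) (x : ℕ) : ℝ := max 0 (s - x)

end Pool.Agent.COV
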