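import Mathlib

set_option autoImplicit false

/-!
Squad COV: from families of covering systems to multiple covers.
-/

namespace Pool.Agent.COV.H11

open Finset Classical

/-- a family of `r` covering systems with disjoint sets of moduli gives an `r`-fold cover -/
theorem fam {r : ℕ} (S : Fin r → Finset ℕ) (a : Fin r → ℕ → ℤ)
    (h2 : ∀ i j, i ≠ j → Disjoint (S i) (S j))
    (h3 : ∀ i (n : ℤ), ∃ d ∈ S i, n ≡ a i d [ZMOD (d : ℤ)]) :
    ∃ b : ℕ → ℤ, (∀ i, ∀ d ∈ S i, b d = a i d) ∧ ∀ n : ℤ,
      r ≤ ((univ.biUnion S).filter (fun d : ℕ => n ≡ b d [ZMOD (d : ℤ)])).card := by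
  have huniq : ∀ i j d, d ∈ S i → d ∈ S j → i = j := by
    intro i j d hi hj
    by_contra hij
    exact (Finset.disjoint_left.mp (h2 i j hij)) hi hj
  let b : ℕ → ℤ := fun d => if h : ∃ i, d ∈ S i then a h.choose d else 0
  have hb : ∀ i, ∀ d ∈ S i, b d = a i d := by
    intro i d hd
    have h : ∃ i, d ∈ S i := ⟨i, hd⟩
    have : b d = a h.choose d := dif_pos h
    rw [this, huniq _ _ d h.choose_spec hd]
  refine ⟨b, hb, fun n => ?_⟩
  choose f hf1 hf2 using fun i => h3 i n
  have hinj : Function.Injective f := by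
    intro i j hij
    exact huniq i j (f i) (hf1 i) (hij ▸ hf1 j)
  calc r = (univ : Finset (Fin r)).card := by simp
    _ = (univ.image f).card := (Finset.card_image_of_injective _ hinj).symm
    _ ≤ _ := Finset.card_le_card (by
        intro d hd
        obtain ⟨i, -, rfl⟩ := Finset.mem_image.mp hd
        refine Finset.mem_filter.mpr ⟨Finset.mem_biUnion.mpr ⟨i, mem_univ _, hf1 i⟩, ?_⟩
        rw [hb i _ (hf1 i)]
        exact hf2 i)

end Pool.Agent.COV.H11
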