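import Pool.Agent.Helper11_COV.Stmt
import Pool.Agent.Helper11_COV.Data

set_option autoImplicit false

/-!
Squad COV: the final theorem for one class.
-/

namespace Pool.Agent.COV.H11

open Finset Classical Pool.Agent.COV

theorem DD_two (c : ℕ → ℕ) (ν : ℕ → ℝ) (f : ℕ → ℝ) : DD c ν 2 f = f 1 := by
  simp [DD, Nat.not_prime_zero, Nat.not_prime_one]

theorem inv0 (c : ℕ → ℕ) (C : ℕ) : Inv c C 2 [(1, SC)] SC SC 0 := by
  refine ⟨fun _ => 0, fun _ => 0, ?_, ?_, ?_, ?_, ?_⟩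
  · intro p hp hpp
    exact absurd hpp.two_le (by omega)
  · intro s _
    rw [DD_two]
    simp [Phi]
  · rw [DD_two]
    simp
  · rw [DD_two]
    simp
  · have : (range 2).filter Nat.Prime = ∅ := by decide
    simp [cost, this]

/-- the final theorem for one class -/
theorem class_fin (hB : BndStmt) (hS : SmpStmt) (hL : BlsStmt) (hT : TaiStmt)
    (hA : PrOk PRa 61 3721) (c : ℕ → ℕ) (C PR z lo hi k0 κ R : ℕ) (L : List Sm)
    (b1 b2 : List (ℕ × ℕ)) (e0 : ℝ) (hPR : PrOk PR lo hi) (hlo : lo ≤ 61 + 6 * fuel b1)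
    (h1 : 61 + 6 * fuel b1 ≤ 3721) (hhi : 61 + 6 * fuel b1 + 6 * fuel b2 ≤ hi)
    (hSm : SmOk c C 2 L 61) (hz : ∀ q, 61 ≤ q → q.Prime → ZOk c z q) (hk0 : 15 ≤ k0)
    (hk : 2 ^ k0 < 61 + 6 * fuel b1 + 6 * fuel b2) (he : Real.exp (8.01 / k0) ≤ e0) (he2 : e0 < 2)
    (he3 : 8 / 3 * e0 ≤ κ * (1 - e0 / 2)) (hd : drive C PR z k0 κ R 61 L b1 b2 = true)
    (S : Finset ℕ) (a : ℕ → ℤ) (hS1 : ∀ d ∈ S, 1 < d)
    (hSc : ∀ d ∈ S, ∀ p, d.factorization p ≤ c p) :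
    ¬ ∀ n : ℤ, R ≤ (S.filter (fun d : ℕ => n ≡ a d [ZMOD (d : ℤ)])).card := by
  intro hcov
  obtain ⟨m, M1, M2, T, hI, hK⟩ := hS c C L 2 61 _ _ _ _ _ hSm (inv0 c C) hd
  obtain ⟨m', M1', M2', T', hI', hK'⟩ := hL c C PRa z 61 3721 b1 61 m M1 M2 T _ hA (le_refl _) h1
    (by norm_num) (by norm_num) hz hI hK
  obtain ⟨m'', M1'', M2'', T'', hI'', hK''⟩ := hL c C PR z lo hi b2 (61 + 6 * fuel b1) m' M1' M2' T' _
    hPR hlo hhi (by omega) (by omega) (fun q hq hqp => hz q (by omega) hqp) hI' hK'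
  have hlt : T'' * (k0 * 2 ^ k0) + M2'' * κ < R * SC * (k0 * 2 ^ k0) := by
    have := hK''
    simp only [Nat.blt_eq] at this
    exact this
  set N : ℕ := S.sup id + 1 with hN
  obtain ⟨W, t, hG, hc⟩ := hT c C _ k0 κ m'' M1'' M2'' T'' e0 hk0 hk he he2 he3 hI'' N
  have hb := hB S a c N R W t hS1 (fun d hd p hp hpd => by
    have h2 : p ≤ d := Nat.le_of_dvd (by have := hS1 d hd; omega) hpd
    have h3 : d ≤ S.sup id := Finset.le_sup (f := id) hd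
    omega) hSc hG hcov
  have hk0R : (0 : ℝ) < (k0 : ℝ) * 2 ^ k0 := by
    have : (0 : ℝ) < k0 := by exact_mod_cast (by omega : 0 < k0)
    positivity
  have hltR : (T'' : ℝ) * (k0 * 2 ^ k0) + M2'' * κ < R * SC * (k0 * 2 ^ k0) := by exact_mod_cast hlt
  have hlt2 : (T'' : ℝ) + M2'' * κ / (k0 * 2 ^ k0) < R * SC := by
    rw [← sub_pos] at hltR ⊢
    have : (R : ℝ) * SC - (T'' + M2'' * κ / (k0 * 2 ^ k0)) =
      (R * SC * (k0 * 2 ^ k0) - (T'' * (k0 * 2 ^ k0) + M2'' * κ)) / (k0 * 2 ^ k0) := by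
      field_simp
    rw [this]
    exact div_pos hltR hk0R
  have hSC : (0 : ℝ) < (SC : ℝ) := by
    have : 0 < SC := by unfold SC; norm_num
    exact_mod_cast this
  nlinarith [mul_le_mul_of_nonneg_left hb hSC.le]

/-- a small prime without cap -/
theorem smc_inf (hW : WtbStmt) (c : ℕ → ℕ) (C : ℕ) (a : Sm) (hJ : a.J ≤ c a.p) (hp : a.p.Prime)
    (h1 : a.wn = 1) (h2 : a.wd + 1 = a.p) (h3 : a.sn + 1 = 3 * a.p) (h4 : a.sd = a.wd ^ 2)
    (h5 : 1 ≤ a.J) (h6 : a.t * a.wn < a.wd) (h7 : a.wd ≤ (a.wd - a.t * a.wn) * a.p)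
    (h8 : a.t ≤ C) : SmC c C a := by
  have hp2 := hp.two_le
  have hwd : 0 < a.wd := by omega
  have e2 : (a.wd : ℝ) = (a.p : ℝ) - 1 := by
    have : (a.wd : ℝ) + 1 = a.p := by exact_mod_cast h2
    linarith
  have e3 : (a.sn : ℝ) = 3 * (a.p : ℝ) - 1 := by
    have : (a.sn : ℝ) + 1 = 3 * a.p := by exact_mod_cast h3
    linarith
  obtain ⟨w1, w2⟩ := hW.1 c a.p hp2
  refine ⟨hp, hwd, by rw [h4]; positivity, ?_, ?_, h5, hJ, h6, h7, h8⟩
  · rw [h1, e2]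
    simpa using w1
  · rw [h4]
    push_cast
    rw [e3, e2]
    exact w2

/-- a small prime with cap one -/
theorem smc_one (hW : WtbStmt) (c : ℕ → ℕ) (C : ℕ) (a : Sm) (hc : c a.p = 1) (hp : a.p.Prime)
    (h1 : a.wn = 1) (h2 : a.wd = a.p) (h3 : a.sn = 3) (h4 : a.sd = a.p)
    (h5 : a.J = 1) (h6 : a.t * a.wn < a.wd) (h7 : a.wd ≤ (a.wd - a.t * a.wn) * a.p)
    (h8 : a.t ≤ C) : SmC c C a := by
  obtain ⟨w1, w2⟩ := hW.2.2.1 c a.p hc
  refine ⟨hp, by rw [h2]; exact hp.pos, by rw [h4]; exact hp.pos, ?_, ?_, by omega, by omega, h6, h7,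
    h8⟩
  · rw [w1, h1, h2]
    simp
  · rw [w2, h3, h4]
    simp

/-- the prime two with cap three -/
theorem smc_two3 (hW : WtbStmt) (c : ℕ → ℕ) (C : ℕ) (hc : c 2 = 3) :
    SmC c C ⟨2, 0, 3, 7, 8, 29, 8⟩ := by
  obtain ⟨w1, w2⟩ := hW.2.2.2 c 2 hc
  refine ⟨Nat.prime_two, by norm_num, by norm_num, ?_, ?_, by norm_num, by simp [hc], by norm_num,
    by norm_num, by norm_num⟩
  · rw [w1]; norm_num
  · rw [w2]; norm_num

/-- the prime two with cap one -/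
theorem smc_two1 (hW : WtbStmt) (c : ℕ → ℕ) (C : ℕ) (hc : c 2 = 1) :
    SmC c C ⟨2, 0, 1, 1, 2, 3, 2⟩ := by
  obtain ⟨w1, w2⟩ := hW.2.2.1 c 2 hc
  refine ⟨Nat.prime_two, by norm_num, by norm_num, ?_, ?_, by norm_num, by simp [hc], by norm_num,
    by norm_num, by norm_num⟩
  · rw [w1]; norm_num
  · rw [w2]; norm_num

end Pool.Agent.COV.H11
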