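import Pool.Agent.COV.StmtsD

/-!
Row NPL of the squad COV (problem MP_160b6c_nt): the norm of a polynomial with coefficients in the integers of a number field.
-/

namespace Pool.Agent.COV.H11

open MvPolynomial NumberField

noncomputable section

variable {K₀ : Type} [Field K₀] [NumberField K₀] {n : ℕ}

/-- the matrix of the multiplication by G over the polynomials with integer coefficients -/
def mtx (G : MvPolynomial (Fin n) (𝓞 K₀)) :
    Matrix (Module.Free.ChooseBasisIndex ℤ (𝓞 K₀)) (Module.Free.ChooseBasisIndex ℤ (𝓞 K₀))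
      (MvPolynomial (Fin n) ℤ) :=
  fun i j => ∑ l ∈ G.support,
    monomial l (Algebra.leftMulMatrix (RingOfIntegers.basis K₀) (G.coeff l) i j)

/-- the norm polynomial -/
def npol (G : MvPolynomial (Fin n) (𝓞 K₀)) : MvPolynomial (Fin n) ℤ := (mtx G).det

theorem npol_eval (G : MvPolynomial (Fin n) (𝓞 K₀)) (t : Fin n → ℤ) :
    MvPolynomial.eval t (npol G) =
      Algebra.norm ℤ (MvPolynomial.eval (fun i => ((t i : ℤ) : 𝓞 K₀)) G) := by
  rw [Algebra.norm_eq_matrix_det (RingOfIntegers.basis K₀), npol, RingHom.map_det]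
  congr 1
  rw [MvPolynomial.eval_eq, map_sum]
  ext i j
  rw [RingHom.mapMatrix_apply, Matrix.map_apply, mtx, map_sum, Matrix.sum_apply]
  refine Finset.sum_congr rfl fun l _ => ?_
  have h1 : (G.coeff l * ∏ i ∈ l.support, ((t i : ℤ) : 𝓞 K₀) ^ l i) =
      (∏ i ∈ l.support, (t i) ^ l i) • G.coeff l := by
    rw [zsmul_eq_mul, mul_comm]
    push_cast
    rfl
  rw [h1, map_zsmul, Matrix.smul_apply, MvPolynomial.eval_monomial, Finsupp.prod, smul_eq_mul, mul_comm]

theorem norm_cast (x : 𝓞 K₀) :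
    ((Algebra.norm ℤ x : ℤ) : ℂ) = ∏ ψ : K₀ →+* ℂ, ψ (x : K₀) := by
  have h1 : ((Algebra.norm ℤ x : ℤ) : ℚ) = Algebra.norm ℚ (x : K₀) := Algebra.coe_norm_int x
  have h2 := Algebra.norm_eq_prod_embeddings ℚ ℂ (x : K₀)
  rw [← h1] at h2
  have h3 : ((Algebra.norm ℤ x : ℤ) : ℂ) = algebraMap ℚ ℂ ((Algebra.norm ℤ x : ℤ) : ℚ) := by
    rw [eq_ratCast]
    push_cast
    rfl
  rw [h3, h2]
  exact (Fintype.prod_equiv (RingHom.equivRatAlgHom K₀ ℂ) _ _ fun ψ => rfl).symm

theorem npol_map (G : MvPolynomial (Fin n) (𝓞 K₀)) :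
    MvPolynomial.map (Int.castRingHom ℂ) (npol G) =
      ∏ ψ : K₀ →+* ℂ, MvPolynomial.map (ψ.comp (algebraMap (𝓞 K₀) K₀)) G := by
  refine MvPolynomial.funext_set (fun _ => Set.range (Int.cast : ℤ → ℂ))
    (fun _ => Set.infinite_range_of_injective Int.cast_injective) fun x hx => ?_
  have hx' : ∀ i, ∃ t : ℤ, (t : ℂ) = x i := fun i => hx i (Set.mem_univ i)
  choose t ht using hx'
  have hxt : x = fun i => ((t i : ℤ) : ℂ) := funext fun i => (ht i).symm
  subst hxt
  rw [MvPolynomial.eval_map, map_prod]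
  have e1 : MvPolynomial.eval₂ (Int.castRingHom ℂ) (fun i => ((t i : ℤ) : ℂ)) (npol G) =
      ((MvPolynomial.eval t (npol G) : ℤ) : ℂ) :=
    (MvPolynomial.eval₂_comp (Int.castRingHom ℂ) t (npol G)).symm
  rw [e1, npol_eval, norm_cast]
  refine Finset.prod_congr rfl fun ψ _ => ?_
  rw [MvPolynomial.eval_map]
  have e2 := MvPolynomial.eval₂_comp (ψ.comp (algebraMap (𝓞 K₀) K₀)) (fun i => ((t i : ℤ) : 𝓞 K₀)) G
  have e3 : (⇑(ψ.comp (algebraMap (𝓞 K₀) K₀)) ∘ fun i => ((t i : ℤ) : 𝓞 K₀)) =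
      fun i => ((t i : ℤ) : ℂ) := by
    funext i
    rw [Function.comp_apply, map_intCast]
  rw [e3] at e2
  exact e2

theorem npol_aeval (G : MvPolynomial (Fin n) (𝓞 K₀)) (t : Fin n → ℂ) :
    MvPolynomial.aeval t (npol G) = ∏ ψ : K₀ →+* ℂ,
      MvPolynomial.eval₂ (ψ.comp (algebraMap (𝓞 K₀) K₀)) t G := by
  have h := congrArg (MvPolynomial.eval t) (npol_map G)
  rw [MvPolynomial.eval_map, map_prod] at h
  rw [MvPolynomial.aeval_def]
  refine Eq.trans ?_ (h.trans (Finset.prod_congr rfl fun ψ _ => MvPolynomial.eval_map _ _ _))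
  rfl

/-! ## Sizes -/

theorem coeff_mul_bound (P Q : MvPolynomial (Fin n) ℂ) (S : ℕ) (B C : ℝ) (hB : 0 ≤ B) (hC : 0 ≤ C)
    (hS : P.support.card ≤ S) (hP : ∀ l, ‖P.coeff l‖ ≤ B) (hQ : ∀ l, ‖Q.coeff l‖ ≤ C) (l : Fin n →₀ ℕ) :
    ‖(P * Q).coeff l‖ ≤ (S : ℝ) * B * C := by
  classical
  rw [MvPolynomial.coeff_mul]
  set T := (Finset.HasAntidiagonal.antidiagonal l).filter (fun a => a.1 ∈ P.support) with hT
  have h1 : ∑ a ∈ Finset.HasAntidiagonal.antidiagonal l, P.coeff a.1 * Q.coeff a.2 =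
      ∑ a ∈ T, P.coeff a.1 * Q.coeff a.2 := by
    rw [hT, Finset.sum_filter]
    refine Finset.sum_congr rfl fun a _ => ?_
    by_cases ha : a.1 ∈ P.support
    · rw [if_pos ha]
    · rw [if_neg ha, MvPolynomial.notMem_support_iff.1 ha, zero_mul]
  rw [h1]
  have h2 : ‖∑ a ∈ T, P.coeff a.1 * Q.coeff a.2‖ ≤ ∑ a ∈ T, B * C := by
    refine (norm_sum_le _ _).trans (Finset.sum_le_sum fun a _ => ?_)
    rw [norm_mul]
    exact mul_le_mul (hP _) (hQ _) (norm_nonneg _) hB
  refine h2.trans ?_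
  rw [Finset.sum_const, nsmul_eq_mul, ← mul_assoc]
  have h3 : T.card ≤ P.support.card := by
    refine Finset.card_le_card_of_injOn (fun a => a.1) (fun a ha => ?_) fun a ha b hb hab => ?_
    · exact (Finset.mem_filter.1 ha).2
    · have ha1 := Finset.HasAntidiagonal.mem_antidiagonal.1 (Finset.mem_filter.1 ha).1
      have hb1 := Finset.HasAntidiagonal.mem_antidiagonal.1 (Finset.mem_filter.1 hb).1
      have hab' : a.1 = b.1 := hab
      rw [← hb1, hab'] at ha1
      exact Prod.ext hab' (add_left_cancel ha1)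
  have h4 : (T.card : ℝ) ≤ (S : ℝ) := by exact_mod_cast h3.trans hS
  exact mul_le_mul_of_nonneg_right (mul_le_mul_of_nonneg_right h4 hB) hC

theorem coeff_prod_bound {ι : Type*} (s : Finset ι) (P : ι → MvPolynomial (Fin n) ℂ) (S : ℕ) (B : ℝ)
    (hB : 0 ≤ B) (hS : ∀ i ∈ s, (P i).support.card ≤ S) (hP : ∀ i ∈ s, ∀ l, ‖(P i).coeff l‖ ≤ B)
    (l : Fin n →₀ ℕ) :
    ‖(∏ i ∈ s, P i).coeff l‖ ≤ ((S : ℝ) * B) ^ s.card := by
  classical
  induction s using Finset.induction_on generalizing l with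
  | empty =>
    rw [Finset.prod_empty, Finset.card_empty, pow_zero, MvPolynomial.coeff_one]
    split_ifs <;> simp
  | insert i s hi ih =>
    rw [Finset.prod_insert hi, Finset.card_insert_of_notMem hi, pow_succ, mul_comm (((S : ℝ) * B) ^ s.card)]
    exact coeff_mul_bound _ _ S B _ hB (pow_nonneg (mul_nonneg (Nat.cast_nonneg S) hB) _)
      (hS i (Finset.mem_insert_self i s)) (hP i (Finset.mem_insert_self i s))
      (ih (fun j hj => hS j (Finset.mem_insert_of_mem hj)) (fun j hj => hP j (Finset.mem_insert_of_mem hj))) l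

theorem supp_card {R : Type*} [CommSemiring R] (P : MvPolynomial (Fin n) R) (A : ℕ)
    (h : P.totalDegree ≤ A) : P.support.card ≤ (A + 1) ^ n := by
  classical
  have h1 : P.support.card ≤ (Finset.univ : Finset (Fin n → Fin (A + 1))).card := by
    refine Finset.card_le_card_of_injOn
      (fun l i => (⟨min (l i) A, by omega⟩ : Fin (A + 1))) (fun _ _ => Finset.mem_univ _)
      fun a ha b hb hab => ?_
    have hle : ∀ c ∈ P.support, ∀ i, c i ≤ A := fun c hc i =>
      ((Finset.single_le_sum (f := fun i => c i) (fun _ _ => Nat.zero_le _) (Finset.mem_univ i)).trans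
        (by
          have := MvPolynomial.le_totalDegree hc
          rw [Finsupp.sum_fintype _ _ (fun _ => rfl)] at this
          exact this)).trans h
    refine Finsupp.ext fun i => ?_
    have h2 := congrFun hab i
    have h3 : min (a i) A = min (b i) A := congrArg Fin.val h2
    rwa [min_eq_left (hle a ha i), min_eq_left (hle b hb i)] at h3
  rwa [Finset.card_univ, Fintype.card_fun, Fintype.card_fin, Fintype.card_fin] at h1

/-- **Row NPL**. -/
theorem npl : Pool.Agent.COV.NplStmt := by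
  intro K₀ _ _ A n
  set d := Fintype.card (K₀ →+* ℂ) with hd
  refine ⟨((A + 1) ^ n * A) ^ d + A * d, fun G => ⟨npol G, npol_eval G, npol_aeval G, ?_⟩⟩
  intro H hH hG
  obtain ⟨hG1, hG2⟩ := hG
  have hinj : Function.Injective (Int.castRingHom ℂ) := Int.cast_injective
  have hsup : ∀ ψ : K₀ →+* ℂ,
      (MvPolynomial.map (ψ.comp (algebraMap (𝓞 K₀) K₀)) G).totalDegree ≤ A := fun ψ => by
    refine le_trans ?_ hG1
    exact Finset.sup_mono (MvPolynomial.support_map_subset _ _)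
  constructor
  · have h1 : (npol G).totalDegree = (MvPolynomial.map (Int.castRingHom ℂ) (npol G)).totalDegree := by
      unfold MvPolynomial.totalDegree
      rw [MvPolynomial.support_map_of_injective _ hinj]
    rw [h1, npol_map]
    refine (MvPolynomial.totalDegree_finsetProd _ _).trans ?_
    refine (Finset.sum_le_sum fun ψ _ => hsup ψ).trans ?_
    rw [Finset.sum_const, Finset.card_univ, ← hd, smul_eq_mul, mul_comm]
    exact Nat.le_add_left _ _
  · intro l
    have h1 : ‖((MvPolynomial.map (Int.castRingHom ℂ) (npol G)).coeff l)‖ ≤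
        (((A + 1) ^ n : ℕ) * ((A : ℝ) * (H : ℝ) ^ A)) ^ d := by
      rw [npol_map]
      have := coeff_prod_bound Finset.univ
        (fun ψ : K₀ →+* ℂ => MvPolynomial.map (ψ.comp (algebraMap (𝓞 K₀) K₀)) G) ((A + 1) ^ n)
        ((A : ℝ) * (H : ℝ) ^ A) (by positivity) (fun ψ _ => supp_card _ A (hsup ψ))
        (fun ψ _ l => by
          rw [MvPolynomial.coeff_map]
          exact hG2 ψ l) l
      rwa [Finset.card_univ, ← hd] at this
    rw [MvPolynomial.coeff_map] at h1
    have h2 : ‖(Int.castRingHom ℂ) ((npol G).coeff l)‖ = ((|(npol G).coeff l| : ℤ) : ℝ) := by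
      rw [eq_intCast, Complex.norm_intCast, Int.cast_abs]
    rw [h2] at h1
    have h3 : (|(npol G).coeff l| : ℤ) ≤ (((A + 1) ^ n : ℕ) * ((A : ℤ) * (H : ℤ) ^ A)) ^ d := by
      exact_mod_cast h1
    refine h3.trans ?_
    have h4 : ((((A + 1) ^ n : ℕ) : ℤ) * ((A : ℤ) * (H : ℤ) ^ A)) ^ d =
        (((((A + 1) ^ n * A) ^ d : ℕ)) : ℤ) * (H : ℤ) ^ (A * d) := by
      push_cast
      rw [← mul_assoc, mul_pow, ← pow_mul]
    rw [h4]
    have hH' : (1 : ℤ) ≤ (H : ℤ) := by exact_mod_cast hH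
    refine mul_le_mul ?_ (pow_le_pow_right₀ hH' (Nat.le_add_left _ _)) (by positivity) (by positivity)
    exact_mod_cast Nat.le_add_right _ _

end

end Pool.Agent.COV.H11
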