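import Pool.Agent.Helper11_COV.Defs
import Pool.Agent.Helper11_COV.Chk
import Pool.Agent.Helper11_COV.Prs

set_option autoImplicit false

/-!
Squad COV: statements of the modules.
-/

namespace Pool.Agent.COV

open Finset Classical

/-! ### Part A: the distortion method -/

/-- RHO: the one-dimensional density -/
def RhoStmt : Prop :=
  ∀ (M : ℕ) (f : ℕ → ℕ) (δ β : ℝ) (ρ : ℕ → ℝ), 0 < M → 0 ≤ δ → δ < 1 →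
  β = (((range M).filter (fun y => f y ≠ 0)).card : ℝ) / (M : ℝ) →
  (∀ y, ρ y = if β ≤ δ then (if f y = 0 then 1 / (1 - β) else 0)
    else (if f y = 0 then 1 / (1 - δ) else (β - δ) / (β * (1 - δ)))) →
  (∀ y, 0 ≤ ρ y ∧ ρ y ≤ 1 / (1 - δ)) ∧ (∑ y ∈ range M, ρ y) / (M : ℝ) = 1 ∧
  (∑ y ∈ range M, ρ y * (f y : ℝ)) / (M : ℝ) ≤
    max 0 ((∑ y ∈ range M, (f y : ℝ)) / (M : ℝ) - δ) / (1 - δ)

/-- ONE: the one-coordinate comparison -/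
def OneStmt : Prop :=
  ∀ (I : Finset ℕ) (w : ℕ → ℝ) (e : ℕ → ℕ) (b : ℕ → ℕ → Prop) (M G : ℕ) (q ν t : ℝ) (ρ : ℕ → ℝ),
  0 < M → 0 < q → (∀ d ∈ I, 0 ≤ w d) → (∀ d ∈ I, e d ≤ G) → (∀ d ∈ I, e d = 0 → ∀ y, b d y) →
  (∀ d ∈ I, (((range M).filter (fun y => b d y)).card : ℝ) * q ^ (e d) ≤ (M : ℝ)) →
  (∀ y, 0 ≤ ρ y ∧ ρ y ≤ ν) → (∑ y ∈ range M, ρ y) / (M : ℝ) = 1 →
  (∑ y ∈ range M, ρ y * max 0 ((∑ d ∈ I.filter (fun d => b d y), w d) - t)) / (M : ℝ) ≤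
    max 0 ((∑ d ∈ I.filter (fun d => e d ≤ 0), w d) - t) +
    ∑ j ∈ range G, ν / q ^ (j + 1) *
      (max 0 ((∑ d ∈ I.filter (fun d => e d ≤ j + 1), w d) - t) -
        max 0 ((∑ d ∈ I.filter (fun d => e d ≤ j), w d) - t))

/-- AVR: the density has mean one, is bounded, and the boxes have the right measure -/
def AvrStmt : Prop :=
  ∀ X : Sys, (∀ p, 0 ≤ X.δ p ∧ X.δ p < 1) →
  (∀ n x, n.Prime → av X.c n (rho X n) x = 1) ∧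
  (∀ n x, n.Prime → 0 ≤ rho X n x ∧ rho X n x ≤ 1 / (1 - X.δ n)) ∧
  (∀ n x, n.Prime → av X.c n (fun y => rho X n y * (cn X n y : ℝ)) x ≤
    max 0 (av X.c n (fun y => (cn X n y : ℝ)) x - X.δ n) / (1 - X.δ n)) ∧
  (∀ p e m r, p.Prime → e ≤ m →
    (((range (p ^ m)).filter (fun y : ℕ => (y : ℤ) ≡ r [ZMOD ((p ^ e : ℕ) : ℤ)])).card : ℝ) *
      (p : ℝ) ^ e = ((p ^ m : ℕ) : ℝ))

/-- POP: properties of the distorted expectation -/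
def PopStmt : Prop :=
  ∀ X : Sys, (∀ p, 0 ≤ X.δ p ∧ X.δ p < 1) →
  (∀ n F G x, (∀ y, F y ≤ G y) → PO X n F x ≤ PO X n G x) ∧
  (∀ n F G (u w : ℝ) x, PO X n (fun y => u * F y + w * G y) x = u * PO X n F x + w * PO X n G x) ∧
  (∀ n (r : ℝ) x, PO X n (fun _ => r) x = r) ∧
  (∀ k n (F : (ℕ → ℕ) → ℝ), k ≤ n → (∀ x y i, k ≤ i → F (Function.update x i y) = F x) →
    ∀ x, PO X n F x = PO X k F x)

/-- HYB: the hybrid induction -/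
def HybStmt : Prop :=
  ∀ X : Sys, (∀ p, 0 ≤ X.δ p ∧ X.δ p < 1) → (∀ p, p.Prime → 1 / (1 - X.δ p) ≤ p) →
  (∀ d ∈ X.S, ∀ p, d.factorization p ≤ X.c p) → ∀ k, k.Prime → ∀ (t : ℝ) (i : ℕ), i ≤ k → ∀ x v,
  PO X i (fun y => HH X k t i y v) x ≤
    VV X.c (fun p => 1 / (1 - X.δ p)) i (fun v' => HH X k t 0 x v') v

/-- VVD: the operators VO, VV and DD -/
def VvdStmt : Prop :=
  (∀ (c : ℕ → ℕ) (ν : ℕ → ℝ) (p : ℕ) (F G : (ℕ → ℕ) → ℝ) v, p.Prime → 0 ≤ ν p → ν p ≤ p →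
    (∀ v, F v ≤ G v) → VO c ν p F v ≤ VO c ν p G v) ∧
  (∀ (c : ℕ → ℕ) (ν : ℕ → ℝ) (n : ℕ) (F G : (ℕ → ℕ) → ℝ), (∀ p, p.Prime → 0 ≤ ν p ∧ ν p ≤ p) →
    (∀ v, F v ≤ G v) → ∀ v, VV c ν n F v ≤ VV c ν n G v) ∧
  (∀ (c : ℕ → ℕ) (ν : ℕ → ℝ) (n : ℕ) (f : ℕ → ℝ) v, VV c ν n (fun v => f (tau n v)) v = DD c ν n f)

/-- CNT: counting exponent vectors -/
def CntStmt : Prop :=
  ∀ (S : Finset ℕ) (c v : ℕ → ℕ) (k : ℕ), k.Prime → (∀ d ∈ S, ∀ p, d.factorization p ≤ c p) →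
  ∑ d ∈ (LS S k).filter (fun d => ∀ p ∈ d.primeFactors, p < k → d.factorization p ≤ v p),
    1 / (k : ℝ) ^ (d.factorization k) ≤ (tau k v : ℝ) * wt c k

/-- CRT: Chinese remainder -/
def CrtStmt : Prop :=
  ∀ (c x : ℕ → ℕ) (N : ℕ), ∃ n : ℤ, ∀ p < N, p.Prime → n ≡ (x p : ℤ) [ZMOD ((p ^ c p : ℕ) : ℤ)]

/-- PTW: if every integer is in at least `r` progressions then every point of the box model is -/
def PtwStmt : Prop :=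
  ∀ (X : Sys) (N r : ℕ), (∀ d ∈ X.S, 1 < d) → (∀ d ∈ X.S, ∀ p, p.Prime → p ∣ d → p < N) →
  (∀ d ∈ X.S, ∀ p, d.factorization p ≤ X.c p) →
  (∀ n : ℤ, r ≤ (X.S.filter (fun d : ℕ => n ≡ X.a d [ZMOD (d : ℤ)])).card) →
  ∀ x : ℕ → ℕ, (r : ℝ) ≤ ∑ k ∈ (range N).filter Nat.Prime, (cn X k x : ℝ)

/-- LEV: the cost of one level -/
def LevStmt : Prop :=
  ∀ X : Sys, (∀ p, 0 ≤ X.δ p ∧ X.δ p < 1) → (∀ d ∈ X.S, ∀ p, d.factorization p ≤ X.c p) →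
  ∀ k, k.Prime → ∀ x v, PO X (k + 1) (fun y => (cn X k y : ℝ)) x ≤
    1 / (1 - X.δ k) * PO X k (fun y => HH X k (X.δ k) k y v) x

/-- BND: the main inequality -/
def BndStmt : Prop :=
  ∀ (S : Finset ℕ) (a : ℕ → ℤ) (c : ℕ → ℕ) (N r : ℕ) (W t : ℕ → ℝ),
  (∀ d ∈ S, 1 < d) → (∀ d ∈ S, ∀ p, p.Prime → p ∣ d → p < N) →
  (∀ d ∈ S, ∀ p, d.factorization p ≤ c p) → Good c N W t →
  (∀ n : ℤ, r ≤ (S.filter (fun d : ℕ => n ≡ a d [ZMOD (d : ℤ)])).card) →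
  (r : ℝ) ≤ cost c W t N

/-! ### Part N: the numerical part -/

/-- DDP: properties of the model expectation -/
def DdpStmt : Prop :=
  (∀ (c : ℕ → ℕ) (ν : ℕ → ℝ) (n : ℕ) (f g : ℕ → ℝ) (u w : ℝ),
    DD c ν n (fun x => u * f x + w * g x) = u * DD c ν n f + w * DD c ν n g) ∧
  (∀ (c : ℕ → ℕ) (ν : ℕ → ℝ) (n : ℕ) (f g : ℕ → ℝ), (∀ p < n, p.Prime → 0 ≤ ν p ∧ ν p ≤ p) →
    (∀ x, 1 ≤ x → f x ≤ g x) → DD c ν n f ≤ DD c ν n g) ∧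
  (∀ (c : ℕ → ℕ) (ν : ℕ → ℝ) (n : ℕ) (r : ℝ), DD c ν n (fun _ => r) = r) ∧
  (∀ (c : ℕ → ℕ) (ν ν' : ℕ → ℝ) (n : ℕ) (f : ℕ → ℝ), (∀ p < n, p.Prime → ν p = ν' p) →
    DD c ν n f = DD c ν' n f)

/-- DDS: one step of the model expectation: mean, second moment, put functions -/
def DdsStmt : Prop :=
  ∀ (c : ℕ → ℕ) (ν : ℕ → ℝ) (n : ℕ), n.Prime → (∀ p < n + 1, p.Prime → 0 ≤ ν p ∧ ν p ≤ p) →
  DD c ν (n + 1) (fun x => (x : ℝ)) = DD c ν n (fun x => (x : ℝ)) * (1 + ν n * wt c n) ∧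
  DD c ν (n + 1) (fun x => (x : ℝ) ^ 2) = DD c ν n (fun x => (x : ℝ) ^ 2) * (1 + ν n * wt2 c n) ∧
  (∀ (s : ℝ) (J : ℕ), J ≤ c n → DD c ν (n + 1) (pt s) ≤ DD c ν n (pt s) +
    ∑ j ∈ range J, ν n / (n : ℝ) ^ (j + 1) *
      (DD c ν n (fun x => pt s ((j + 2) * x)) - DD c ν n (fun x => pt s ((j + 1) * x)))) ∧
  (∀ (s : ℝ) (k : ℕ), 0 < k →
    DD c ν n (fun x => pt s (k * x)) = k * DD c ν n (pt (s / k)))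

/-- WTB: bounds for the weights -/
def WtbStmt : Prop :=
  (∀ (c : ℕ → ℕ) (p : ℕ), 2 ≤ p → wt c p ≤ 1 / ((p : ℝ) - 1) ∧
    wt2 c p ≤ (3 * (p : ℝ) - 1) / ((p : ℝ) - 1) ^ 2) ∧
  (∀ (c : ℕ → ℕ) (p : ℕ), c p = 0 → wt c p = 0 ∧ wt2 c p = 0) ∧
  (∀ (c : ℕ → ℕ) (p : ℕ), c p = 1 → wt c p = 1 / (p : ℝ) ∧ wt2 c p = 3 / (p : ℝ)) ∧
  (∀ (c : ℕ → ℕ) (p : ℕ), c p = 3 → wt c p = 1 / (p : ℝ) + 1 / (p : ℝ) ^ 2 + 1 / (p : ℝ) ^ 3 ∧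
    wt2 c p = 3 / (p : ℝ) + 5 / (p : ℝ) ^ 2 + 7 / (p : ℝ) ^ 3)

/-- real value of a mass list -/
noncomputable def Phi (l : ML) (f : ℕ → ℝ) : ℝ := (l.map (fun a => (a.2 : ℝ) * f a.1)).sum

/-- MLA: mass lists, basic operations -/
def MlaStmt : Prop :=
  (∀ (g m : ℕ) (l : ML) (f : ℕ → ℝ), Phi (ins g m l) f = m * f g + Phi l f) ∧
  (∀ (n : ℕ) (a b : ML) (f : ℕ → ℝ), Phi (mrg n a b) f = Phi a f + Phi b f) ∧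
  (∀ (t k : ℕ) (l : ML), ((phi t k l : ℕ) : ℝ) = Phi l (fun x => pt (t : ℝ) (k * x))) ∧
  (∀ (l : ML) (K : ML → Bool), frc l K = K l) ∧
  (∀ (l : ML) (f g : ℕ → ℝ), (∀ x, f x ≤ g x) → Phi l f ≤ Phi l g) ∧
  (∀ (l : ML) (u : ℝ) (f : ℕ → ℝ), Phi l (fun x => u * f x) = u * Phi l f)

/-- MLB: scaling and spreading -/
def MlbStmt : Prop :=
  (∀ (C k u v : ℕ) (l : ML) (s : ℝ), s ≤ C → 0 < v →
    (u : ℝ) / v * Phi l (fun x => pt s (k * x)) ≤ Phi (mulL C k u v l) (pt s)) ∧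
  (∀ (x m : ℕ) (l : ML) (s : ℝ), m * pt s x + Phi l (pt s) ≤ Phi (spr x m l) (pt s)) ∧
  (∀ (C k u v : ℕ) (l : ML) (s : ℝ), s ≤ C → 0 < v →
    (u : ℝ) / v * Phi l (fun x => pt s (k * x)) ≤ Phi (mulS C k u v l) (pt s))

/-- UPD: the update of a mass list at a small prime -/
def UpdStmt : Prop :=
  ∀ (C p wd D J : ℕ) (m : ML) (s : ℝ), s ≤ C → 0 < D → 1 < p → 1 ≤ J → wd ≤ D * p →
  Phi m (pt s) + ∑ j ∈ range J, ((wd : ℝ) / D) / (p : ℝ) ^ (j + 1) *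
      (Phi m (fun x => pt s ((j + 2) * x)) - Phi m (fun x => pt s ((j + 1) * x))) ≤
    Phi (upd C p wd D J m J) (pt s)

/-- the invariant: the state bounds the model expectation at `n` -/
def Inv (c : ℕ → ℕ) (C n : ℕ) (m : ML) (M1 M2 T : ℕ) : Prop :=
  ∃ W t : ℕ → ℝ, Good c n W t ∧
    (∀ s : ℝ, s ≤ C → (SC : ℝ) * DD c (nu W t) n (pt s) ≤ Phi m (pt s)) ∧
    (SC : ℝ) * DD c (nu W t) n (fun x => (x : ℝ)) ≤ M1 ∧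
    (SC : ℝ) * DD c (nu W t) n (fun x => (x : ℝ) ^ 2) ≤ M2 ∧
    (SC : ℝ) * cost c W t n ≤ T

/-- conditions on the data of a small prime -/
def SmC (c : ℕ → ℕ) (C : ℕ) (a : Sm) : Prop :=
  a.p.Prime ∧ 0 < a.wd ∧ 0 < a.sd ∧ wt c a.p ≤ (a.wn : ℝ) / a.wd ∧ wt2 c a.p ≤ (a.sn : ℝ) / a.sd ∧
  1 ≤ a.J ∧ a.J ≤ c a.p ∧ a.t * a.wn < a.wd ∧ a.wd ≤ (a.wd - a.t * a.wn) * a.p ∧ a.t ≤ C

/-- the list contains all primes `q` with `c q ≠ 0` in `[n, n')` -/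
def SmOk (c : ℕ → ℕ) (C : ℕ) : ℕ → List Sm → ℕ → Prop
  | n, [], n' => n ≤ n' ∧ ∀ q, n ≤ q → q < n' → q.Prime → c q = 0
  | n, a :: L, n' => n ≤ a.p ∧ (∀ q, n ≤ q → q < a.p → q.Prime → c q = 0) ∧ SmC c C a ∧
      SmOk c C (a.p + 1) L n'

/-- SMP: the small phase is sound -/
def SmpStmt : Prop :=
  ∀ (c : ℕ → ℕ) (C : ℕ) (L : List Sm) (n n' : ℕ) (m : ML) (M1 M2 T : ℕ)
    (K : ML → ℕ → ℕ → ℕ → Bool), SmOk c C n L n' → Inv c C n m M1 M2 T →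
    small C L m M1 M2 T K = true →
    ∃ m' M1' M2' T', Inv c C n' m' M1' M2' T' ∧ K m' M1' M2' T' = true

/-- the invariant inside a block -/
def InvB (c : ℕ → ℕ) (C n : ℕ) (m : ML) (s0 s1 M1 M2 T : ℕ) : Prop :=
  ∃ W t : ℕ → ℝ, Good c n W t ∧ s0 ≤ SC ∧ s1 ≤ SC ∧
    (∀ s : ℝ, s ≤ C → (SC : ℝ) * ((SC : ℝ) * DD c (nu W t) n (pt s)) ≤
      SC * Phi m (fun x => pt s (4 * x)) +
      s0 * (Phi m (pt s) - Phi m (fun x => pt s (2 * x))) +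
      s1 * (Phi m (fun x => pt s (2 * x)) - Phi m (fun x => pt s (4 * x)))) ∧
    (SC : ℝ) * DD c (nu W t) n (fun x => (x : ℝ)) ≤ M1 ∧
    (SC : ℝ) * DD c (nu W t) n (fun x => (x : ℝ) ^ 2) ≤ M2 ∧
    (SC : ℝ) * cost c W t n ≤ T

/-- conditions on `c` for the block phase with flag `z` -/
def ZOk (c : ℕ → ℕ) (z n : ℕ) : Prop := (z = 1 ∧ 2 ≤ c n) ∨ (z = 0 ∧ c n = 1)

/-- BKI: the in-block invariant at a non-prime -/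
def BkiStmt : Prop :=
  (∀ (c : ℕ → ℕ) (C n : ℕ) (m : ML) (M1 M2 T : ℕ), Inv c C n m M1 M2 T →
    InvB c C n m SC SC M1 M2 T) ∧
  (∀ (c : ℕ → ℕ) (C n : ℕ) (m : ML) (s0 s1 M1 M2 T : ℕ), ¬ n.Prime →
    InvB c C n m s0 s1 M1 M2 T → InvB c C (n + 1) m s0 s1 M1 M2 T) ∧
  (∀ (c : ℕ → ℕ) (C n : ℕ) (m : ML) (s0 s1 M1 M2 T : ℕ), InvB c C n m s0 s1 M1 M2 T →
    Inv c C n (mrg 1000 (mulL C 1 s0 SC m)
      (mrg 1000 (mulL C 2 (s1 - s0) SC m) (mulL C 4 (SC - s1) SC m))) M1 M2 T) ∧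
  (∀ (c : ℕ → ℕ) (C n : ℕ) (m : ML) (M1 M2 T : ℕ), (¬ n.Prime ∨ c n = 0) →
    Inv c C n m M1 M2 T → Inv c C (n + 1) m M1 M2 T)

/-- BKP: the in-block invariant at a prime -/
def BkpStmt : Prop :=
  ∀ (c : ℕ → ℕ) (C n z t : ℕ) (m : ML) (s0 s1 M1 M2 T : ℕ), n.Prime → ZOk c z n →
  2 * t + z ≤ n → t ≤ C → InvB c C n m s0 s1 M1 M2 T →
  InvB c C (n + 1) m (s0 - s0 * (n - z) / (n * (n - z - t)))
    (mn (s1 - s1 * (n - z) / (n * (n - z - t)) +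
      cd (s0 * (n - z) * (2 * n - z)) (2 * n * (n * (n - z - t)))))
    (M1 + cd M1 (n - z - t)) (M2 + cd (M2 * (3 * n - z)) ((n - z) * (n - z - t)))
    (T + cd (cd (s0 * (phi t 1 m - phi t 2 m) + s1 * (phi t 2 m - phi t 4 m)) SC + M1 +
      phi t 4 m - t * SC) (n - z - t))

/-- the sieving product `PR` recognises the primes of `[lo, hi)` coprime to 6 -/
def PrOk (PR lo hi : ℕ) : Prop :=
  ∀ n, lo ≤ n → n < hi → (n % 6 = 1 ∨ n % 6 = 5) → (Nat.gcd n PR = 1 ↔ n.Prime)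

/-- SIV: the three sieving products -/
def SivStmt : Prop :=
  PrOk PRa 61 3721 ∧ PrOk PRb 511 271441 ∧ PrOk PRc 1023 1062961

/-- BLK: the block loop is sound -/
def BlkStmt : Prop :=
  ∀ (c : ℕ → ℕ) (C PR z t f n lo hi : ℕ) (m : ML) (s0 s1 M1 M2 T : ℕ)
    (K : ℕ → ℕ → ℕ → ℕ → ℕ → ℕ → Bool), PrOk PR lo hi → lo ≤ n → n + 6 * f ≤ hi → n % 6 = 1 →
    5 ≤ n → (∀ q, n ≤ q → q.Prime → ZOk c z q) → 2 * t + z ≤ n → t ≤ C →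
    InvB c C n m s0 s1 M1 M2 T →
    blk PR z t (phi t 1 m - phi t 2 m) (phi t 2 m - phi t 4 m) (phi t 4 m) f n s0 s1 M1 M2 T K
      = true →
    ∃ s0' s1' M1' M2' T', InvB c C (n + 6 * f) m s0' s1' M1' M2' T' ∧
      K (n + 6 * f) s0' s1' M1' M2' T' = true

/-- total fuel -/
def fuel (L : List (ℕ × ℕ)) : ℕ := (L.map Prod.fst).sum

/-- BLS: the block phase is sound -/
def BlsStmt : Prop :=
  ∀ (c : ℕ → ℕ) (C PR z lo hi : ℕ) (L : List (ℕ × ℕ)) (n : ℕ) (m : ML) (M1 M2 T : ℕ)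
    (K : ℕ → ML → ℕ → ℕ → ℕ → Bool), PrOk PR lo hi → lo ≤ n → n + 6 * fuel L ≤ hi → n % 6 = 1 →
    5 ≤ n → (∀ q, n ≤ q → q.Prime → ZOk c z q) → Inv c C n m M1 M2 T →
    blocks C PR z L n m M1 M2 T K = true →
    ∃ m' M1' M2' T', Inv c C (n + 6 * fuel L) m' M1' M2' T' ∧
      K (n + 6 * fuel L) m' M1' M2' T' = true

/-- CHB: Chebyshev bound in dyadic blocks -/
def ChbStmt : Prop :=
  ∀ k : ℕ, k * ((Ioc (2 ^ k) (2 ^ (k + 1))).filter Nat.Prime).card ≤ 2 ^ (k + 1)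

/-- TAI: the tail -/
def TaiStmt : Prop :=
  ∀ (c : ℕ → ℕ) (C n k0 κ : ℕ) (m : ML) (M1 M2 T : ℕ) (e0 : ℝ), 15 ≤ k0 → 2 ^ k0 < n →
  Real.exp (8.01 / k0) ≤ e0 → e0 < 2 → 8 / 3 * e0 ≤ κ * (1 - e0 / 2) →
  Inv c C n m M1 M2 T → ∀ N : ℕ, ∃ W t : ℕ → ℝ, Good c N W t ∧
    (SC : ℝ) * cost c W t N ≤ T + M2 * κ / (k0 * 2 ^ k0)

/-- EXP: the constants of the tail -/
def ExpStmt : Prop :=
  (Real.exp (8.01 / (15 : ℕ)) ≤ 1.706 ∧ (8 : ℝ) / 3 * 1.706 ≤ (31 : ℕ) * (1 - 1.706 / 2)) ∧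
  (Real.exp (8.01 / (17 : ℕ)) ≤ 1.602 ∧ (8 : ℝ) / 3 * 1.602 ≤ (22 : ℕ) * (1 - 1.602 / 2)) ∧
  (Real.exp (8.01 / (18 : ℕ)) ≤ 1.561 ∧ (8 : ℝ) / 3 * 1.561 ≤ (19 : ℕ) * (1 - 1.561 / 2)) ∧
  (Real.exp (8.01 / (20 : ℕ)) ≤ 1.493 ∧ (8 : ℝ) / 3 * 1.493 ≤ (16 : ℕ) * (1 - 1.493 / 2))

end Pool.Agent.COV
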